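import Mathlib

/-!
Homogenisation of a polynomial.
-/

namespace Pool.Agent.Lib.MP_17a322_nt.GE

open MvPolynomial

/-- The form of degree `d` which is `P` on the hyperplane `X none = 1`. -/
noncomputable def hom {R : Type*} [CommRing R] {σ : Type} (d : ℕ) (P : MvPolynomial σ R) : MvPolynomial (Option σ) R :=
  ∑ k ∈ Finset.range (d + 1), X none ^ (d - k) * rename some (homogeneousComponent k P)

/-- The restriction to the hyperplane `X none = 1`. -/
noncomputable def dhom {R : Type*} [CommRing R] {σ : Type} : MvPolynomial (Option σ) R →ₐ[R] MvPolynomial σ R :=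
  aeval fun o : Option σ => o.elim 1 X

theorem hom_isHomogeneous {R : Type*} [CommRing R] {σ : Type} (d : ℕ) (P : MvPolynomial σ R) :
    (hom d P).IsHomogeneous d := by
  unfold hom
  apply IsHomogeneous.sum
  intro k hk
  have h1 : (X none ^ (d - k) : MvPolynomial (Option σ) R).IsHomogeneous (1 * (d - k)) :=
    (isHomogeneous_X R none).pow (d - k)
  have h2 := h1.mul ((homogeneousComponent_isHomogeneous k P).rename_isHomogeneous (f := some))
  have h3 : 1 * (d - k) + k = d := by
    have := Finset.mem_range.1 hk
    omega
  rwa [h3] at h2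

private theorem A1_sum {R : Type*} [CommRing R] {σ : Type} (d : ℕ) (P : MvPolynomial σ R) (hP : P.totalDegree ≤ d) :
    ∑ k ∈ Finset.range (d + 1), homogeneousComponent k P = P := by
  have h1 : ∑ k ∈ Finset.range (d + 1), homogeneousComponent k P =
      ∑ k ∈ Finset.range (P.totalDegree + 1), homogeneousComponent k P := by
    symm
    apply Finset.sum_subset
    · intro k hk
      rw [Finset.mem_range] at hk ⊢
      omega
    · intro k _ hk
      apply homogeneousComponent_eq_zero
      rw [Finset.mem_range] at hk
      omega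
  rw [h1, sum_homogeneousComponent]

private theorem A1_ren {R : Type*} [CommRing R] {σ : Type} (Q : MvPolynomial σ R) :
    dhom (rename some Q) = Q := by
  unfold dhom
  rw [aeval_rename]
  have h : ((fun o : Option σ => o.elim 1 X) ∘ some : σ → MvPolynomial σ R) = X := rfl
  rw [h, aeval_X_left_apply]

theorem dhom_hom {R : Type*} [CommRing R] {σ : Type} (d : ℕ) (P : MvPolynomial σ R) (hP : P.totalDegree ≤ d) :
    dhom (hom d P) = P := by
  unfold hom
  rw [map_sum]
  have h1 : ∀ k ∈ Finset.range (d + 1),
      dhom (X none ^ (d - k) * rename some (homogeneousComponent k P)) = homogeneousComponent k P := by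
    intro k _
    rw [map_mul, map_pow, A1_ren]
    have h2 : dhom (X none : MvPolynomial (Option σ) R) = 1 := by
      unfold dhom
      rw [aeval_X]
      rfl
    rw [h2, one_pow, one_mul]
  rw [Finset.sum_congr rfl h1, A1_sum d P hP]

theorem map_hom {R S : Type*} [CommRing R] [CommRing S] (f : R →+* S) {σ : Type} (d : ℕ) (P : MvPolynomial σ R) :
    map f (hom d P) = hom d (map f P) := by
  unfold hom
  rw [map_sum]
  refine Finset.sum_congr rfl fun k _ => ?_
  rw [map_mul, map_pow, map_X, map_rename]
  congr 2
  ext m
  rw [coeff_map, coeff_homogeneousComponent, coeff_homogeneousComponent, coeff_map]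
  split_ifs
  · rfl
  · exact map_zero f

private theorem A1_hom_sum {R : Type*} [CommRing R] {σ β : Type} (d : ℕ) (s : Finset β) (F : β → MvPolynomial σ R) :
    hom d (∑ b ∈ s, F b) = ∑ b ∈ s, hom d (F b) := by
  unfold hom
  rw [Finset.sum_comm]
  refine Finset.sum_congr rfl fun k _ => ?_
  rw [map_sum, map_sum, Finset.mul_sum]

private theorem A1_dhom_monomial {R : Type*} [CommRing R] {σ : Type} (m : Option σ →₀ ℕ) (c : R) :
    dhom (monomial m c) = monomial m.some c := by
  unfold dhom
  rw [aeval_monomial, Finsupp.prod_option_index _ _ (fun _ => pow_zero _) (fun _ _ _ => pow_add _ _ _), monomial_eq]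
  simp only [Option.elim_none, Option.elim_some, one_pow, one_mul]
  rfl

private theorem A1_degree {σ : Type} (m : Option σ →₀ ℕ) : m.degree = m none + m.some.degree := by
  have h := Finsupp.sum_option_index m (fun _ n => n) (fun _ => rfl) (fun _ _ _ => rfl)
  exact h

private theorem A1_hom_monomial {R : Type*} [CommRing R] {σ : Type} (d : ℕ) (m : Option σ →₀ ℕ) (c : R)
    (hm : m.degree = d) : hom d (monomial m.some c) = monomial m c := by
  classical
  have hd : m.some.degree ≤ d := by
    have := A1_degree m
    omega
  have hc : (monomial m.some c).IsHomogeneous m.some.degree := isHomogeneous_monomial c rfl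
  unfold hom
  rw [Finset.sum_eq_single m.some.degree]
  · rw [homogeneousComponent_of_mem ((mem_homogeneousSubmodule _ _).2 hc), if_pos rfl, rename_monomial]
    have h1 : (X none ^ (d - m.some.degree) : MvPolynomial (Option σ) R) =
        monomial (Finsupp.single none (d - m.some.degree)) 1 := X_pow_eq_monomial
    have h2 : Finsupp.single none (d - m.some.degree) + Finsupp.mapDomain some m.some = m := by
      refine Finsupp.ext fun o => ?_
      cases o with
      | none =>
        rw [Finsupp.add_apply, Finsupp.single_eq_same, Finsupp.mapDomain_of_notMem_range _ _ (by simp), add_zero]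
        have := A1_degree m
        omega
      | some a =>
        rw [Finsupp.add_apply, Finsupp.mapDomain_apply (Option.some_injective σ), Finsupp.some_apply]
        simp
    rw [h1, monomial_mul, one_mul, h2]
  · intro k _ hk
    rw [homogeneousComponent_of_mem ((mem_homogeneousSubmodule _ _).2 hc), if_neg hk, map_zero, mul_zero]
  · intro h
    exact absurd (Finset.mem_range.2 (by omega)) h

private theorem A1_hom_dhom {R : Type*} [CommRing R] {σ : Type} {d : ℕ} {A : MvPolynomial (Option σ) R}
    (hA : A.IsHomogeneous d) : hom d (dhom A) = A := by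
  conv_lhs => rw [A.as_sum]
  conv_rhs => rw [A.as_sum]
  rw [map_sum, A1_hom_sum]
  refine Finset.sum_congr rfl fun m hm => ?_
  rw [A1_dhom_monomial, A1_hom_monomial d m _ (hA.degree_eq_sum_deg_support hm).symm]

/-- A form is determined by its restriction. -/
theorem eq_of_dhom {R : Type*} [CommRing R] {σ : Type} {d : ℕ} {A B : MvPolynomial (Option σ) R}
    (hA : A.IsHomogeneous d) (hB : B.IsHomogeneous d) (h : dhom A = dhom B) : A = B := by
  rw [← A1_hom_dhom hA, ← A1_hom_dhom hB, h]

private theorem A1_totalDegree {R : Type*} [CommRing R] {σ : Type} (A : MvPolynomial (Option σ) R) :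
    (dhom A).totalDegree ≤ A.totalDegree := by
  conv_lhs => rw [A.as_sum]
  rw [map_sum]
  apply totalDegree_finsetSum_le
  intro m hm
  rw [A1_dhom_monomial]
  refine (totalDegree_monomial_le _ _).trans ?_
  have h1 : m.degree ≤ A.totalDegree := le_totalDegree hm
  have h2 : m.some.degree ≤ m.degree := by
    have := A1_degree m
    omega
  exact h2.trans h1

/-- Divisibility of forms. -/
theorem hom_dvd {K : Type*} [Field K] {σ : Type} {d : ℕ} {h : MvPolynomial σ K} (h0 : h ≠ 0)
    {A : MvPolynomial (Option σ) K} (hA : A.IsHomogeneous d) (hd : h ∣ dhom A) : hom h.totalDegree h ∣ A := by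
  obtain ⟨q, hq⟩ := hd
  by_cases hq0 : q = 0
  · have h1 : A = 0 := by
      apply eq_of_dhom hA (isHomogeneous_zero _ _ _)
      rw [hq, hq0, mul_zero, map_zero]
    rw [h1]
    exact dvd_zero _
  have h2 : h.totalDegree + q.totalDegree ≤ d := by
    rw [← totalDegree_mul_of_isDomain h0 hq0, ← hq]
    exact (A1_totalDegree A).trans hA.totalDegree_le
  refine ⟨hom (d - h.totalDegree) q, ?_⟩
  have h3 : (hom h.totalDegree h * hom (d - h.totalDegree) q).IsHomogeneous d := by
    have h4 := (hom_isHomogeneous h.totalDegree h).mul (hom_isHomogeneous (d - h.totalDegree) q)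
    rwa [Nat.add_sub_cancel' (by omega)] at h4
  apply eq_of_dhom hA h3
  rw [map_mul, dhom_hom _ _ le_rfl, dhom_hom _ _ (by omega), hq]

/-- The homogenisation of an irreducible polynomial is irreducible. -/
theorem hom_irreducible {K : Type*} [Field K] {σ : Type} {h : MvPolynomial σ K} (hh : Irreducible h) :
    Irreducible (hom h.totalDegree h) := by
  have hd : dhom (hom h.totalDegree h) = h := dhom_hom _ _ le_rfl
  have h0 : hom h.totalDegree h ≠ 0 := by
    intro h1
    rw [h1, map_zero] at hd
    exact hh.ne_zero hd.symm
  have key : ∀ A B : MvPolynomial (Option σ) K, hom h.totalDegree h = A * B → IsUnit (dhom A) → IsUnit A := by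
    intro A B hAB hA
    have hA0 : A ≠ 0 := by
      rintro rfl
      exact h0 (by rw [hAB, zero_mul])
    have hB0 : B ≠ 0 := by
      rintro rfl
      exact h0 (by rw [hAB, mul_zero])
    have h1 : A.totalDegree + B.totalDegree = h.totalDegree := by
      rw [← totalDegree_mul_of_isDomain hA0 hB0, ← hAB]
      exact (hom_isHomogeneous _ h).totalDegree h0
    have h2 : h = dhom A * dhom B := by
      rw [← map_mul, ← hAB, hd]
    have h3 : h.totalDegree ≤ (dhom B).totalDegree := by
      have hB1 : dhom B ≠ 0 := by
        intro h4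
        exact hh.ne_zero (by rw [h2, h4, mul_zero])
      have hA1 : dhom A ≠ 0 := hA.ne_zero
      rw [h2, totalDegree_mul_of_isDomain hA1 hB1]
      obtain ⟨c, hc, hc'⟩ := isUnit_iff_eq_C_of_isReduced.1 hA
      rw [hc', totalDegree_C, zero_add]
    have h4 := A1_totalDegree B
    have h5 : A.totalDegree = 0 := by omega
    rw [totalDegree_eq_zero_iff_eq_C] at h5
    rw [h5] at hA0 ⊢
    exact (IsUnit.mk0 _ fun h6 => hA0 (by rw [h6, C_0])).map C
  refine ⟨fun hu => hh.not_isUnit (hd ▸ hu.map dhom), fun A B hAB => ?_⟩
  have h2 : h = dhom A * dhom B := by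
    rw [← map_mul, ← hAB, hd]
  rcases hh.isUnit_or_isUnit h2 with h3 | h3
  · exact Or.inl (key A B hAB h3)
  · exact Or.inr (key B A (by rw [hAB, mul_comm]) h3)

end Pool.Agent.Lib.MP_17a322_nt.GE
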