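import Pool.Agent.Lib.MP_17a322_nt.GE.Defs
import Pool.Agent.Lib.MP_17a322_nt.GE.A1

/-!
The inequality for the integral zeros of an irreducible polynomial.
-/

namespace Pool.Agent.Lib.MP_17a322_nt.GE

open MvPolynomial

/-- The point `(1, x)`. -/
def pt {σ : Type} (x : σ → ℤ) : Option σ → ℤ := fun o => o.elim 1 x

theorem eval_dhom {σ : Type} (A : MvPolynomial (Option σ) ℤ) (x : σ → ℤ) : eval x (dhom A) = eval (pt x) A := by
  unfold dhom
  induction A using MvPolynomial.induction_on with
  | C a => simp
  | add p q hp hq => rw [map_add, map_add, map_add, hp, hq]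
  | mul_X p o hp =>
    rw [map_mul, map_mul, map_mul, hp, aeval_X, eval_X]
    rcases o with _ | i
    · simp [pt]
    · simp [pt]

theorem pderiv_dhom {σ : Type} (A : MvPolynomial (Option σ) ℤ) (i : σ) :
    pderiv i (dhom A) = dhom (pderiv (some i) A) := by
  classical
  unfold dhom
  induction A using MvPolynomial.induction_on with
  | C a => simp
  | add p q hp hq => simp only [map_add, hp, hq]
  | mul_X p o hp =>
    rw [map_mul, Derivation.leibniz, Derivation.leibniz, hp, aeval_X, pderiv_X]
    rcases o with _ | l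
    · simp
    · rcases eq_or_ne l i with rfl | hli
      · simp [pderiv_X]
      · simp [pderiv_X, hli]

/-- Euler's identity at a zero. -/
theorem eval_pderiv_none {σ : Type} [Fintype σ] {d : ℕ} {A : MvPolynomial (Option σ) ℤ} (hA : A.IsHomogeneous d)
    (x : σ → ℤ) (hx : eval (pt x) A = 0) :
    eval (pt x) (pderiv none A) = - ∑ i, x i * eval (pt x) (pderiv (some i) A) := by
  have h := congrArg (eval (pt x)) hA.sum_X_mul_pderiv
  rw [Fintype.sum_option, map_add, map_sum] at h
  simp only [map_mul, eval_X, nsmul_eq_mul, map_natCast, hx, mul_zero] at h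
  have h1 : pt x none = 1 := rfl
  have h2 : ∀ i, pt x (some i) = x i := fun i => rfl
  simp only [h1, h2, one_mul] at h
  linarith

theorem gcd_pt {σ : Type} [Fintype σ] {d : ℕ} {A : MvPolynomial (Option σ) ℤ} (hA : A.IsHomogeneous d)
    (x : σ → ℤ) (hx : eval (pt x) A = 0) :
    (Finset.univ.gcd fun o => eval (pt x) (pderiv o A)) =
      Finset.univ.gcd fun i => eval (pt x) (pderiv (some i) A) := by
  refine dvd_antisymm_of_normalize_eq Finset.normalize_gcd Finset.normalize_gcd ?_ ?_
  · exact Finset.dvd_gcd fun i _ => Finset.gcd_dvd (f := fun o => eval (pt x) (pderiv o A)) (Finset.mem_univ (some i))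
  · refine Finset.dvd_gcd fun o _ => ?_
    rcases o with _ | i
    · rw [eval_pderiv_none hA x hx]
      exact (dvd_neg).2 (Finset.dvd_sum fun i _ => Dvd.dvd.mul_left
        (Finset.gcd_dvd (f := fun i => eval (pt x) (pderiv (some i) A)) (Finset.mem_univ i)) _)
    · exact Finset.gcd_dvd (f := fun i => eval (pt x) (pderiv (some i) A)) (Finset.mem_univ i)

theorem norm_pt {σ : Type} [Fintype σ] (x : σ → ℤ) : ‖pt x‖ = max 1 ‖x‖ := by
  refine le_antisymm ((pi_norm_le_iff_of_nonneg (le_max_of_le_left zero_le_one)).2 fun o => ?_) (max_le ?_ ?_)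
  · rcases o with _ | i
    · exact le_max_of_le_left (by simp [pt])
    · exact le_max_of_le_right (norm_le_pi_norm x i)
  · exact le_trans (by simp [pt]) (norm_le_pi_norm (pt x) none)
  · exact (pi_norm_le_iff_of_nonneg (norm_nonneg _)).2 fun i => norm_le_pi_norm (pt x) (some i)

theorem norm_comp_equiv {α β : Type} [Fintype α] [Fintype β] (e : α ≃ β) (f : β → ℤ) : ‖f ∘ e‖ = ‖f‖ := by
  refine le_antisymm ((pi_norm_le_iff_of_nonneg (norm_nonneg _)).2 fun a => norm_le_pi_norm f (e a)) ?_
  refine (pi_norm_le_iff_of_nonneg (norm_nonneg _)).2 fun b => ?_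
  have h := norm_le_pi_norm (f ∘ e) (e.symm b)
  rwa [Function.comp_apply, e.apply_symm_apply] at h

theorem gcd_comp_equiv {α β : Type} [Fintype α] [Fintype β] (e : α ≃ β) (f : β → ℤ) :
    Finset.univ.gcd (f ∘ e) = Finset.univ.gcd f := by
  refine dvd_antisymm_of_normalize_eq Finset.normalize_gcd Finset.normalize_gcd ?_ ?_
  · refine Finset.dvd_gcd fun b _ => ?_
    have h := Finset.gcd_dvd (f := f ∘ e) (Finset.mem_univ (e.symm b))
    rwa [Function.comp_apply, e.apply_symm_apply] at h
  · exact Finset.dvd_gcd fun a _ => Finset.gcd_dvd (f := f) (Finset.mem_univ (e a))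

theorem aff_of_grad_deg (n : ℕ) (a : ℝ) {σ : Type} [Fintype σ] (hσ : Fintype.card σ = n) (h : MvPolynomial σ ℤ)
    (hh : Irreducible (map (Int.castRingHom ℚ) h))
    (hc : ∀ H : MvPolynomial (Fin (n + 1)) ℤ, H.IsHomogeneous (map (Int.castRingHom ℚ) h).totalDegree →
      Irreducible (map (Int.castRingHom ℚ) H) → GradE a H) : AffE a h := by
  classical
  have hco : Fintype.card (Option σ) = n + 1 := by rw [Fintype.card_option, hσ]
  set e : Option σ ≃ Fin (n + 1) := Fintype.equivFinOfCardEq hco
  set d := (map (Int.castRingHom ℚ) h).totalDegree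
  have hd : h.totalDegree ≤ d := by
    change h.totalDegree ≤ (map (Int.castRingHom ℚ) h).totalDegree
    unfold totalDegree
    rw [support_map_of_injective h (RingHom.injective_int (Int.castRingHom ℚ))]
  have hH := hom_isHomogeneous d h
  have hirr : Irreducible (map (Int.castRingHom ℚ) (rename e (hom d h))) := by
    rw [map_rename, map_hom]
    exact (MulEquiv.irreducible_iff (renameEquiv ℚ e)).2 (hom_irreducible hh)
  obtain ⟨G, C, ⟨e', hG⟩, hdiv, hbd⟩ := hc _ (hH.rename_isHomogeneous (f := e)) hirr
  refine ⟨dhom (rename e.symm G), C, fun hdvd => hdiv ?_, fun x hx hGx => ?_⟩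
  · have h1 : (rename e.symm (map (Int.castRingHom ℚ) G)).IsHomogeneous e' := (hG.map _).rename_isHomogeneous
    have h2 : map (Int.castRingHom ℚ) (dhom (rename e.symm G)) =
        dhom (rename e.symm (map (Int.castRingHom ℚ) G)) := by
      rw [← map_rename]
      generalize rename e.symm G = A
      unfold dhom
      induction A using MvPolynomial.induction_on with
      | C a => simp
      | add p q hp hq => simp only [map_add, hp, hq]
      | mul_X p o hp =>
        rw [map_mul, map_mul, map_mul, map_mul, hp, aeval_X, map_X, aeval_X]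
        rcases o with _ | i <;> simp
    rw [h2] at hdvd
    have h3 := map_dvd (rename e : MvPolynomial (Option σ) ℚ →ₐ[ℚ] _) (hom_dvd hh.ne_zero h1 hdvd)
    rwa [rename_rename, Equiv.self_comp_symm, rename_id_apply, ← map_hom, ← map_rename] at h3
  · set p : Fin (n + 1) → ℤ := pt x ∘ e.symm
    have hpe : p ∘ e = pt x := by rw [Function.comp_assoc, Equiv.symm_comp_self, Function.comp_id]
    have hxH : eval (pt x) (hom d h) = 0 := by rw [← eval_dhom, dhom_hom d h hd, hx]
    have hp1 : Finset.univ.gcd p = 1 := by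
      rw [gcd_comp_equiv]
      have h1 : Finset.univ.gcd (pt x) ∣ 1 := Finset.gcd_dvd (f := pt x) (Finset.mem_univ none)
      have h2 := Int.isUnit_iff.1 (isUnit_of_dvd_one h1)
      have h3 : 0 ≤ Finset.univ.gcd (pt x) := Int.nonneg_of_normalize_eq_self Finset.normalize_gcd
      rcases h2 with h2 | h2
      · exact h2
      · rw [h2] at h3; omega
    have hpd : (fun j => eval p (pderiv j (rename e (hom d h)))) =
        (fun o => eval (pt x) (pderiv o (hom d h))) ∘ e.symm := by
      funext j
      rw [Function.comp_apply]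
      obtain ⟨o, rfl⟩ := e.surjective j
      rw [e.symm_apply_apply, pderiv_rename e.injective, eval_rename, hpe]
    have hb := hbd p hp1 (by rw [eval_rename, hpe, hxH]) (by
      rw [eval_dhom, eval_rename] at hGx
      exact hGx)
    rw [hpd, norm_comp_equiv, gcd_comp_equiv, gcd_pt hH x hxH, norm_comp_equiv, norm_pt] at hb
    have hgr : ∀ i, eval x (pderiv i h) = eval (pt x) (pderiv (some i) (hom d h)) := fun i => by
      rw [← eval_dhom, ← pderiv_dhom, dhom_hom d h hd]
    simp only [hgr]
    refine le_trans ((pi_norm_le_iff_of_nonneg (norm_nonneg _)).2 fun i => ?_) hb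
    exact norm_le_pi_norm (fun o => eval (pt x) (pderiv o (hom d h))) (some i)

theorem aff_of_grad (n : ℕ) (a : ℝ)
    (hc : ∀ (e : ℕ) (H : MvPolynomial (Fin (n + 1)) ℤ), H.IsHomogeneous e → Irreducible (map (Int.castRingHom ℚ) H) →
      GradE a H) {σ : Type} [Fintype σ] (hσ : Fintype.card σ = n) (h : MvPolynomial σ ℤ)
    (hh : Irreducible (map (Int.castRingHom ℚ) h)) : AffE a h :=
  aff_of_grad_deg n a hσ h hh fun H hH => hc _ H hH

end Pool.Agent.Lib.MP_17a322_nt.GE
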