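import Pool.Agent.Lib.MP_17a322_nt.GE.S0

/-!
Digits of integers with a nonvanishing condition.
-/

namespace Pool.Agent.Lib.MP_17a322_nt.GE

open MvPolynomial

/-- The digits above the last one, as a function on all indices. -/
private def B1_w {n k : ℕ} (z : Option (Fin (n + 1) × Fin k) → ℚ) (i : Fin (n + 1)) : Fin (k + 1) → ℚ :=
  Fin.cons 0 fun j => z (some (i, j))

/-- The sets from which the coordinates are chosen. -/
private noncomputable def B1_box {n k : ℕ} (D : ℕ) (x : Fin (n + 1) → ℤ) (u₀ : ℤ) :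
    Option (Fin (n + 1) × Fin k) → (Option (Fin (n + 1) × Fin k) → ℚ) → Finset ℚ
  | none, _ => (Finset.range (D + 1)).image fun a : ℕ => ((u₀ + a : ℤ) : ℚ)
  | some (i, j), z => (Finset.range (D + 1)).image fun s : ℕ =>
      ((⌊rr (x i) 0 (z none) (B1_w z i) j.succ / z none ^ (j.succ : ℕ)⌋ + s : ℤ) : ℚ)

private theorem B1_card {n k : ℕ} (D : ℕ) (x : Fin (n + 1) → ℤ) (u₀ : ℤ) (b : Option (Fin (n + 1) × Fin k))
    (z : Option (Fin (n + 1) × Fin k) → ℚ) : D < (B1_box D x u₀ b z).card := by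
  rcases b with _ | ⟨i, j⟩
  · rw [B1_box, Finset.card_image_of_injective _ (by
      intro a b hab
      have h1 : (u₀ + (a : ℕ) : ℤ) = u₀ + (b : ℕ) := Int.cast_injective hab
      omega), Finset.card_range]
    exact Nat.lt_succ_self D
  · rw [B1_box, Finset.card_image_of_injective _ (by
      intro a b hab
      have h1 : (⌊rr (x i) 0 (z none) (B1_w z i) j.succ / z none ^ (j.succ : ℕ)⌋ + (a : ℕ) : ℤ) =
          ⌊rr (x i) 0 (z none) (B1_w z i) j.succ / z none ^ (j.succ : ℕ)⌋ + (b : ℕ) := Int.cast_injective hab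
      omega), Finset.card_range]
    exact Nat.lt_succ_self D

private theorem B1_dep {n k : ℕ} (D : ℕ) (x : Fin (n + 1) → ℤ) (u₀ : ℤ) (b : Option (Fin (n + 1) × Fin k))
    (z z' : Option (Fin (n + 1) × Fin k) → ℚ)
    (h : ∀ b' : Option (Fin (n + 1) × Fin k), (b'.elim 0 fun a => k - (a.2 : ℕ)) < (b.elim 0 fun a => k - (a.2 : ℕ)) →
      z b' = z' b') : B1_box D x u₀ b z = B1_box D x u₀ b z' := by
  rcases b with _ | ⟨i, j⟩
  · rw [B1_box, B1_box]
  · have hj := j.is_lt
    have hu : z none = z' none := h _ (by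
      simp only [Option.elim_none, Option.elim_some]
      omega)
    have hr : rr (x i) 0 (z none) (B1_w z i) j.succ = rr (x i) 0 (z' none) (B1_w z' i) j.succ := by
      rw [rr, rr, hu]
      congr 1
      apply Finset.sum_congr rfl
      intro j' hj'
      have h1 := (Finset.mem_filter.1 hj').2
      obtain ⟨j'', rfl⟩ := Fin.exists_succ_eq.2 (show j' ≠ 0 by
        rintro rfl
        exact absurd h1 (by simp))
      rw [Fin.succ_lt_succ_iff, Fin.lt_def] at h1
      have h2 : z (some (i, j'')) = z' (some (i, j'')) := h _ (by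
        simp only [Option.elim_some]
        have := j''.is_lt
        omega)
      rw [B1_w, B1_w, Fin.cons_succ, Fin.cons_succ, h2]
    rw [B1_box, B1_box, hr, hu]

/-- For a nonzero polynomial `F` in `u` (the variable `none`) and the digits `w_ij`, `j ≥ 1` (the variables
`some (i, j)`, where `j` stands for `j + 1`), and integers `x_i` which are at most `u₀ ^ k` in absolute value there
are a base `u ≥ u₀` and integers `w_ij`, all at most a constant times `u₀`, such that `x_i = ∑ j, w_ij u ^ j` and `F`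
does not vanish at `u` and the `w_ij`, `j ≥ 1`. The constant depends only on the degree of `F` and on `k`. -/
theorem exists_digits (n k D : ℕ) (hk : 0 < k) : ∃ B : ℕ, ∀ (F : MvPolynomial (Option (Fin (n + 1) × Fin k)) ℤ),
    F ≠ 0 → F.totalDegree ≤ D → ∀ (x : Fin (n + 1) → ℤ) (u₀ : ℤ), 1 ≤ u₀ → (∀ i, |x i| ≤ u₀ ^ k) →
    ∃ (u : ℤ) (w : Fin (n + 1) → Fin (k + 1) → ℤ), u₀ ≤ u ∧ u ≤ B * u₀ ∧ (∀ i j, |w i j| ≤ B * u₀) ∧
      (∀ i, ∑ j : Fin (k + 1), w i j * u ^ (j : ℕ) = x i) ∧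
      eval (fun o : Option (Fin (n + 1) × Fin k) => o.elim u fun ij => w ij.1 ij.2.succ) F ≠ 0 := by
  classical
  refine ⟨2 * (D + 1) * (D + 1), fun F hF hFD x u₀ hu₀ hx => ?_⟩
  have hF' : map (Int.castRingHom ℚ) F ≠ 0 := by
    intro h
    exact hF (map_injective _ (Int.cast_injective (α := ℚ)) (h.trans (map_zero _).symm))
  obtain ⟨p₀, hp₀⟩ : ∃ p₀, eval p₀ (map (Int.castRingHom ℚ) F) ≠ 0 := by
    by_contra hc
    push Not at hc
    exact hF' (MvPolynomial.funext fun p => by rw [hc p, map_zero])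
  have hdeg : (map (Int.castRingHom ℚ) F).totalDegree ≤ D := by
    refine le_trans ?_ hFD
    rw [totalDegree, totalDegree]
    exact Finset.sup_mono (support_map_subset _ _)
  obtain ⟨p, -, hp2, hp3⟩ := seq (map (Int.castRingHom ℚ) F) D hdeg (fun _ => False)
    (fun b => b.elim 0 fun a => k - (a.2 : ℕ)) (B1_box D x u₀) (fun b _ z => B1_card D x u₀ b z)
    (fun b _ z z' h => B1_dep D x u₀ b z z' fun b' hb' => h b' (Or.inr hb')) p₀ hp₀
  have hu : ∃ a : ℕ, a ≤ D ∧ p none = ((u₀ + a : ℤ) : ℚ) := by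
    have h1 := hp2 none not_false
    rw [B1_box, Finset.mem_image] at h1
    obtain ⟨a, ha, h1⟩ := h1
    exact ⟨a, Nat.lt_succ_iff.1 (Finset.mem_range.1 ha), h1.symm⟩
  obtain ⟨a, haD, hu⟩ := hu
  have hw : ∀ i (j : Fin k), ∃ s : ℕ, s ≤ D ∧ p (some (i, j)) =
      ((⌊rr (x i) 0 (p none) (B1_w p i) j.succ / p none ^ (j.succ : ℕ)⌋ + s : ℤ) : ℚ) := by
    intro i j
    have h1 := hp2 (some (i, j)) not_false
    rw [B1_box, Finset.mem_image] at h1
    obtain ⟨s, hs, h1⟩ := h1
    exact ⟨s, Nat.lt_succ_iff.1 (Finset.mem_range.1 hs), h1.symm⟩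
  obtain ⟨u, hud⟩ : ∃ u : ℤ, u = u₀ + a := ⟨_, rfl⟩
  rw [← hud] at hu
  have hu1 : u₀ ≤ u := by omega
  have hu2 : u ≤ (D + 1) * u₀ := by
    have h1 : (a : ℤ) ≤ D := by exact_mod_cast haD
    nlinarith
  have huq : (1 : ℚ) ≤ p none := by
    rw [hu]
    exact_mod_cast hu₀.trans hu1
  choose s hsD hs using hw
  obtain ⟨W, hW⟩ : ∃ W : Fin (n + 1) → Fin k → ℤ, ∀ i j, p (some (i, j)) = W i j := ⟨_, fun i j => hs i j⟩
  have hbd : ∀ i, |rr (x i : ℚ) 0 (p none) (B1_w p i) 0| ≤ (D + 1) * p none ∧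
      (∀ j, j ≠ 0 → j ≠ Fin.last k → |B1_w p i j| ≤ 2 * (D + 1) * p none) ∧
      |B1_w p i (Fin.last k)| ≤ |(x i : ℚ) - 0| / p none ^ k + (D + 1) := by
    intro i
    refine digit_bound hk _ _ _ huq _ fun j hj => ?_
    obtain ⟨j', rfl⟩ := Fin.exists_succ_eq.2 hj
    refine ⟨s i j', hsD i j', ?_⟩
    have h1 : B1_w p i j'.succ = p (some (i, j')) := by rw [B1_w, Fin.cons_succ]
    rw [h1]
    exact hs i j'
  have hlast : ∀ i, |B1_w p i (Fin.last k)| ≤ D + 2 := by
    intro i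
    refine (hbd i).2.2.trans ?_
    have h1 : |(x i : ℚ) - 0| ≤ p none ^ k := by
      rw [sub_zero, hu]
      have h2 : |x i| ≤ u ^ k := (hx i).trans (pow_le_pow_left₀ (by omega) hu1 k)
      exact_mod_cast h2
    have h3 : |(x i : ℚ) - 0| / p none ^ k ≤ 1 := by
      rw [div_le_one (by positivity)]
      exact h1
    linarith
  have hall : ∀ i (j : Fin k), |W i j| ≤ 2 * (D + 1) * u := by
    intro i j
    have h1 : B1_w p i j.succ = W i j := by rw [B1_w, Fin.cons_succ, hW]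
    have hD0 : (0 : ℚ) ≤ D := Nat.cast_nonneg _
    have h2 : |(W i j : ℚ)| ≤ 2 * (D + 1) * p none := by
      rw [← h1]
      by_cases hj : j.succ = Fin.last k
      · rw [hj]
        refine (hlast i).trans ?_
        nlinarith
      · exact (hbd i).2.1 _ (Fin.succ_ne_zero j) hj
    rw [hu] at h2
    exact_mod_cast h2
  have hrr : ∀ i, rr (x i : ℚ) 0 (p none) (B1_w p i) 0 = ((x i - ∑ j : Fin k, W i j * u ^ ((j : ℕ) + 1) : ℤ) : ℚ) := by
    intro i
    have h1 : Finset.univ.filter ((0 : Fin (k + 1)) < ·) = Finset.univ.image Fin.succ := by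
      ext j
      simp only [Finset.mem_filter, Finset.mem_univ, true_and, Finset.mem_image]
      rw [Fin.pos_iff_ne_zero]
      exact Fin.exists_succ_eq.symm
    rw [rr, h1, Finset.sum_image (fun a _ b _ h => Fin.succ_injective _ h), sub_zero]
    push_cast
    congr 1
    apply Finset.sum_congr rfl
    intro j _
    rw [B1_w, Fin.cons_succ, hW, hu, Fin.val_succ]
  obtain ⟨w, hw0, hws⟩ : ∃ w : Fin (n + 1) → Fin (k + 1) → ℤ,
      (∀ i, w i 0 = x i - ∑ j : Fin k, W i j * u ^ ((j : ℕ) + 1)) ∧ ∀ i (j : Fin k), w i j.succ = W i j :=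
    ⟨fun i => Fin.cons (x i - ∑ j : Fin k, W i j * u ^ ((j : ℕ) + 1)) (W i), fun i => rfl, fun i j => rfl⟩
  refine ⟨u, w, hu1, ?_, ?_, ?_, ?_⟩
  · push_cast
    have h1 : (0 : ℤ) ≤ D := by positivity
    nlinarith
  · intro i j
    have hD0 : (0 : ℤ) ≤ D := by positivity
    have h5 : 2 * ((D : ℤ) + 1) * u ≤ ((2 * (D + 1) * (D + 1) : ℕ) : ℤ) * u₀ := by
      push_cast
      nlinarith
    induction j using Fin.cases with
    | zero =>
      rw [hw0]
      have h1 := (hbd i).1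
      rw [hrr, hu] at h1
      have h2 : |x i - ∑ j : Fin k, W i j * u ^ ((j : ℕ) + 1)| ≤ (D + 1) * u := by exact_mod_cast h1
      have hu0 : 0 ≤ u := by omega
      nlinarith
    | succ j =>
      rw [hws]
      exact (hall i j).trans h5
  · intro i
    rw [Fin.sum_univ_succ, hw0]
    simp only [hws, Fin.val_succ, Fin.val_zero, pow_zero, mul_one]
    ring
  · intro h0
    apply hp3
    have h1 : p = fun o : Option (Fin (n + 1) × Fin k) => ((o.elim u fun ij => W ij.1 ij.2 : ℤ) : ℚ) := by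
      funext o
      rcases o with _ | ⟨i, j⟩
      · exact hu
      · exact hW i j
    simp only [hws] at h0
    rw [h1]
    have h2 := eval₂_comp_left (Int.castRingHom ℚ) (RingHom.id ℤ)
      (fun o : Option (Fin (n + 1) × Fin k) => o.elim u fun ij => W ij.1 ij.2) F
    have h3 : eval (fun o : Option (Fin (n + 1) × Fin k) => ((o.elim u fun ij => W ij.1 ij.2 : ℤ) : ℚ))
        (map (Int.castRingHom ℚ) F) = ((eval (fun o : Option (Fin (n + 1) × Fin k) => o.elim u fun ij => W ij.1 ij.2)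
          F : ℤ) : ℚ) := by
      rw [eval_map]
      exact h2.symm
    rw [h3, h0, Int.cast_zero]

end Pool.Agent.Lib.MP_17a322_nt.GE
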