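import Mathlib

/-!
The expansion of the variables in the base `u`.
-/

namespace Pool.Agent.Lib.MP_17a322_nt.GE

open MvPolynomial

section

variable (n k : ℕ)

/-- The variables: `none` is the base `u`, and `some (i, j)` is the digit `w_ij`. -/
abbrev Vr : Type := Option (Fin (n + 1) × Fin (k + 1))

variable {n}

/-- The number with the digits `w_ij` in the base `u`. -/
noncomputable def XX (R : Type*) [CommRing R] (i : Fin (n + 1)) : MvPolynomial (Vr n k) R :=
  ∑ j : Fin (k + 1), X (some (i, j)) * X none ^ (j : ℕ)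

/-- The polynomial `H` at the expansions. -/
noncomputable def ex {R : Type*} [CommRing R] (H : MvPolynomial (Fin (n + 1)) R) : MvPolynomial (Vr n k) R :=
  aeval (XX k R) H

theorem map_ex {R S : Type*} [CommRing R] [CommRing S] (f : R →+* S) (H : MvPolynomial (Fin (n + 1)) R) :
    map f (ex k H) = ex k (map f H) := by
  unfold ex
  induction H using MvPolynomial.induction_on with
  | C a => rw [map_C, aeval_C, aeval_C, algebraMap_eq, algebraMap_eq, map_C]
  | add p q hp hq => simp only [map_add, hp, hq]
  | mul_X p i hp =>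
    rw [map_mul, map_mul, map_mul, map_mul, aeval_X, map_X, aeval_X, hp]
    congr 1
    unfold XX
    rw [map_sum]
    refine Finset.sum_congr rfl fun j _ => ?_
    rw [map_mul, map_pow, map_X, map_X]

private theorem B2_eval_XX {R : Type*} [CommRing R] (q : Vr n k → R) (i : Fin (n + 1)) :
    eval q (XX k R i) = ∑ j : Fin (k + 1), q (some (i, j)) * q none ^ (j : ℕ) := by
  unfold XX
  rw [map_sum]
  refine Finset.sum_congr rfl fun j _ => ?_
  rw [map_mul, map_pow, eval_X, eval_X]

theorem eval_ex {R : Type*} [CommRing R] (H : MvPolynomial (Fin (n + 1)) R) (q : Vr n k → R) (x : Fin (n + 1) → R)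
    (h : ∀ i, ∑ j : Fin (k + 1), q (some (i, j)) * q none ^ (j : ℕ) = x i) : eval q (ex k H) = eval x H := by
  unfold ex
  induction H using MvPolynomial.induction_on with
  | C a => rw [aeval_C, algebraMap_eq, eval_C, eval_C]
  | add p q hp hq => simp only [map_add, hp, hq]
  | mul_X p i hp => rw [map_mul, map_mul, map_mul, aeval_X, hp, eval_X, B2_eval_XX, h]

/-- the chain rule -/
private theorem B2_chain {R : Type*} [CommRing R] {σ τ : Type} [Fintype σ] [DecidableEq σ] (g : σ → MvPolynomial τ R) (t : τ)
    (H : MvPolynomial σ R) : pderiv t (aeval g H) = ∑ i, aeval g (pderiv i H) * pderiv t (g i) := by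
  induction H using MvPolynomial.induction_on with
  | C a =>
    rw [aeval_C, algebraMap_eq, pderiv_C]
    refine (Finset.sum_eq_zero fun i _ => ?_).symm
    rw [pderiv_C, map_zero, zero_mul]
  | add p q hp hq =>
    simp only [map_add, hp, hq, add_mul, Finset.sum_add_distrib]
  | mul_X p i hp =>
    have h1 : ∀ l : σ, aeval g (pderiv l (p * X i)) * pderiv t (g l) =
        (aeval g (pderiv l p) * pderiv t (g l)) * g i + if l = i then aeval g p * pderiv t (g i) else 0 := by
      intro l
      by_cases hl : l = i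
      · subst hl
        rw [pderiv_mul, pderiv_X_self, if_pos rfl, map_add, map_mul, aeval_X, mul_one]
        ring
      · rw [pderiv_mul, pderiv_X_of_ne (Ne.symm hl), if_neg hl, map_add, map_mul, aeval_X, mul_zero, map_zero, add_zero]
        ring
    rw [map_mul, aeval_X, pderiv_mul, hp, Finset.sum_congr rfl fun l _ => h1 l, Finset.sum_add_distrib,
      Finset.sum_ite_eq' Finset.univ i, if_pos (Finset.mem_univ i), ← Finset.sum_mul]

private theorem B2_eval {R : Type*} [CommRing R] (H : MvPolynomial (Fin (n + 1)) R) (q : Vr n k → R)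
    (x : Fin (n + 1) → R) (h : ∀ i, ∑ j : Fin (k + 1), q (some (i, j)) * q none ^ (j : ℕ) = x i) (t : Vr n k) :
    eval q (pderiv t (ex k H)) = ∑ i, eval x (pderiv i H) * eval q (pderiv t (XX k R i)) := by
  unfold ex
  rw [B2_chain, map_sum]
  refine Finset.sum_congr rfl fun i _ => ?_
  rw [map_mul]
  congr 1
  exact eval_ex k (pderiv i H) q x h

/-- The derivatives with respect to the digits. -/
theorem eval_pderiv_ex {R : Type*} [CommRing R] (H : MvPolynomial (Fin (n + 1)) R) (q : Vr n k → R)
    (x : Fin (n + 1) → R) (h : ∀ i, ∑ j : Fin (k + 1), q (some (i, j)) * q none ^ (j : ℕ) = x i) (i : Fin (n + 1))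
    (j : Fin (k + 1)) : eval q (pderiv (some (i, j)) (ex k H)) = eval x (pderiv i H) * q none ^ (j : ℕ) := by
  have hX : ∀ i' : Fin (n + 1), pderiv (some (i, j)) (XX k R i') = if i' = i then X none ^ (j : ℕ) else 0 := by
    intro i'
    unfold XX
    rw [map_sum]
    have h1 : ∀ j' : Fin (k + 1), pderiv (some (i, j)) (X (some (i', j')) * X none ^ (j' : ℕ) : MvPolynomial (Vr n k) R) =
        if j' = j then (if i' = i then X none ^ (j : ℕ) else 0) else 0 := by
      intro j'
      have h2 : pderiv (some (i, j)) (X none : MvPolynomial (Vr n k) R) = 0 := pderiv_X_of_ne (by simp)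
      have h3 : pderiv (some (i, j)) (X none ^ (j' : ℕ) : MvPolynomial (Vr n k) R) = 0 := by
        rw [Derivation.leibniz_pow, h2, smul_zero, smul_zero]
      rw [pderiv_mul, h3, mul_zero, add_zero]
      by_cases hj : j' = j
      · rw [if_pos hj]
        by_cases hi : i' = i
        · rw [if_pos hi, hi, hj, pderiv_X_self, one_mul]
        · rw [if_neg hi, pderiv_X_of_ne (fun h => hi (congrArg Prod.fst (Option.some.inj h))), zero_mul]
      · rw [if_neg hj, pderiv_X_of_ne (fun h => hj (congrArg Prod.snd (Option.some.inj h))), zero_mul]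
    rw [Finset.sum_congr rfl fun j' _ => h1 j', Finset.sum_ite_eq' Finset.univ j, if_pos (Finset.mem_univ j)]
  rw [B2_eval k H q x h]
  have h4 : ∀ i' : Fin (n + 1), eval x (pderiv i' H) * eval q (pderiv (some (i, j)) (XX k R i')) =
      if i' = i then eval x (pderiv i H) * q none ^ (j : ℕ) else 0 := by
    intro i'
    rw [hX i']
    by_cases hi : i' = i
    · rw [if_pos hi, if_pos hi, map_pow, eval_X, hi]
    · rw [if_neg hi, if_neg hi, map_zero, mul_zero]
  rw [Finset.sum_congr rfl fun i' _ => h4 i', Finset.sum_ite_eq' Finset.univ i, if_pos (Finset.mem_univ i)]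

/-- The derivative with respect to the base. -/
theorem dvd_pderiv_ex (H : MvPolynomial (Fin (n + 1)) ℤ) (q : Vr n k → ℤ)
    (x : Fin (n + 1) → ℤ) (h : ∀ i, ∑ j : Fin (k + 1), q (some (i, j)) * q none ^ (j : ℕ) = x i) :
    (Finset.univ.gcd fun j => eval x (pderiv j H) : ℤ) ∣ eval q (pderiv none (ex k H)) := by
  rw [B2_eval k H q x h]
  exact Finset.dvd_sum fun i _ => (Finset.gcd_dvd (Finset.mem_univ i)).mul_right _

/-- the substitution of the lowest digits -/
private noncomputable def B2_sub (K : Type*) [CommRing K] (g : Fin (n + 1) → MvPolynomial (Vr n k) K) :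
    MvPolynomial (Vr n k) K →ₐ[K] MvPolynomial (Vr n k) K :=
  aeval fun o : Vr n k => o.elim (X none) fun t => if t.2 = 0 then g t.1 else X (some t)

private theorem B2_sub_none (K : Type*) [CommRing K] (g : Fin (n + 1) → MvPolynomial (Vr n k) K) :
    B2_sub k K g (X none) = X none := by
  unfold B2_sub
  rw [aeval_X]
  rfl

private theorem B2_sub_zero (K : Type*) [CommRing K] (g : Fin (n + 1) → MvPolynomial (Vr n k) K) (i : Fin (n + 1)) :
    B2_sub k K g (X (some (i, 0))) = g i := by
  unfold B2_sub
  rw [aeval_X, Option.elim_some, if_pos rfl]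

private theorem B2_sub_ne (K : Type*) [CommRing K] (g : Fin (n + 1) → MvPolynomial (Vr n k) K) (i : Fin (n + 1))
    {j : Fin (k + 1)} (hj : j ≠ 0) : B2_sub k K g (X (some (i, j))) = X (some (i, j)) := by
  unfold B2_sub
  rw [aeval_X, Option.elim_some, if_neg hj]

/-- the sum over the higher digits -/
private noncomputable def B2_hi (K : Type*) [CommRing K] (i : Fin (n + 1)) : MvPolynomial (Vr n k) K :=
  ∑ j ∈ Finset.univ.erase (0 : Fin (k + 1)), X (some (i, j)) * X none ^ (j : ℕ)

private theorem B2_XX (K : Type*) [CommRing K] (i : Fin (n + 1)) : XX k K i = X (some (i, 0)) + B2_hi k K i := by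
  unfold XX B2_hi
  rw [← Finset.add_sum_erase _ _ (Finset.mem_univ (0 : Fin (k + 1)))]
  congr 1
  rw [Fin.val_zero, pow_zero, mul_one]

private theorem B2_sub_hi (K : Type*) [CommRing K] (g : Fin (n + 1) → MvPolynomial (Vr n k) K) (i : Fin (n + 1)) :
    B2_sub k K g (B2_hi k K i) = B2_hi k K i := by
  unfold B2_hi
  rw [map_sum]
  refine Finset.sum_congr rfl fun j hj => ?_
  rw [map_mul, map_pow, B2_sub_none, B2_sub_ne k K g i (Finset.ne_of_mem_erase hj)]

/-- The automorphism which maps the lowest digits `w_i0` to the numbers `XX_i` and fixes the other variables. -/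
noncomputable def ex_equiv (K : Type*) [CommRing K] : MvPolynomial (Vr n k) K ≃ₐ[K] MvPolynomial (Vr n k) K :=
  AlgEquiv.ofAlgHom (B2_sub k K (XX k K)) (B2_sub k K fun i => X (some (i, 0)) - B2_hi k K i)
    (by
      refine MvPolynomial.algHom_ext fun o => ?_
      rw [AlgHom.comp_apply, AlgHom.id_apply]
      rcases o with _ | ⟨i, j⟩
      · rw [B2_sub_none, B2_sub_none]
      · by_cases hj : j = 0
        · subst hj
          rw [B2_sub_zero, map_sub, B2_sub_zero, B2_sub_hi, B2_XX]
          ring
        · rw [B2_sub_ne k K _ i hj, B2_sub_ne k K _ i hj])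
    (by
      refine MvPolynomial.algHom_ext fun o => ?_
      rw [AlgHom.comp_apply, AlgHom.id_apply]
      rcases o with _ | ⟨i, j⟩
      · rw [B2_sub_none, B2_sub_none]
      · by_cases hj : j = 0
        · subst hj
          rw [B2_sub_zero, B2_XX, map_add, B2_sub_zero, B2_sub_hi]
          ring
        · rw [B2_sub_ne k K _ i hj, B2_sub_ne k K _ i hj])

theorem ex_equiv_none (K : Type*) [CommRing K] : ex_equiv (n := n) k K (X none) = X none :=
  B2_sub_none k K (XX k K)

theorem ex_equiv_zero (K : Type*) [CommRing K] (i : Fin (n + 1)) : ex_equiv k K (X (some (i, 0))) = XX k K i :=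
  B2_sub_zero k K (XX k K) i

theorem ex_equiv_succ (K : Type*) [CommRing K] (i : Fin (n + 1)) (j : Fin k) :
    ex_equiv k K (X (some (i, j.succ))) = X (some (i, j.succ)) :=
  B2_sub_ne k K (XX k K) i (Fin.succ_ne_zero j)

theorem ex_equiv_symm_zero (K : Type*) [CommRing K] (i : Fin (n + 1)) :
    (ex_equiv k K).symm (X (some (i, 0))) = X (some (i, 0)) - ∑ j : Fin k, X (some (i, j.succ)) * X none ^ ((j : ℕ) + 1) := by
  change B2_sub k K (fun i => X (some (i, 0)) - B2_hi k K i) (X (some (i, 0))) = _
  rw [B2_sub_zero]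
  congr 1
  have h := B2_XX k K i
  unfold XX at h
  rw [Fin.sum_univ_succ, Fin.val_zero, pow_zero, mul_one] at h
  have h2 := add_left_cancel h
  rw [← h2]
  refine Finset.sum_congr rfl fun j _ => ?_
  rw [Fin.val_succ]

theorem ex_equiv_rename (K : Type*) [CommRing K] (H : MvPolynomial (Fin (n + 1)) K) :
    ex_equiv k K (rename (fun i : Fin (n + 1) => (some (i, 0) : Vr n k)) H) = ex k H := by
  change B2_sub k K (XX k K) (rename _ H) = aeval (XX k K) H
  unfold B2_sub
  rw [aeval_rename]
  congr 1

/-- The polynomial `H` at the expansions is irreducible. -/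
theorem ex_irreducible {K : Type*} [Field K] {H : MvPolynomial (Fin (n + 1)) K} (hH : Irreducible H) :
    Irreducible (ex k H) := by
  have hinj : Function.Injective (fun i : Fin (n + 1) => (some (i, 0) : Vr n k)) := fun a b hab =>
    congrArg Prod.fst (Option.some.inj hab)
  rw [← ex_equiv_rename, MulEquiv.irreducible_iff (ex_equiv k K)]
  set s : Set (Vr n k) := Set.range fun i : Fin (n + 1) => (some (i, 0) : Vr n k) with hs
  have h1 : Irreducible (renameEquiv K (Equiv.ofInjective _ hinj) H) :=
    (MulEquiv.irreducible_iff (renameEquiv K (Equiv.ofInjective _ hinj))).2 hH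
  have h2 := UniqueFactorizationMonoid.irreducible_iff_prime.1 h1
  have h3 := (MvPolynomial.prime_rename_iff (R := K) s).2 h2
  have h4 : rename ((↑) : s → Vr n k) (renameEquiv K (Equiv.ofInjective _ hinj) H) =
      rename (fun i : Fin (n + 1) => (some (i, 0) : Vr n k)) H := by
    rw [renameEquiv_apply, rename_rename]
    rfl
  rw [h4] at h3
  exact h3.irreducible

end

end Pool.Agent.Lib.MP_17a322_nt.GE
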