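import Pool.Agent.Lib.MP_17a322_nt.GE.B1
import Pool.Agent.Lib.MP_17a322_nt.GE.B2

/-!
The exceptional set.
-/

namespace Pool.Agent.Lib.MP_17a322_nt.GE

open MvPolynomial

section

variable {n k : ℕ}

/-- The lowest digits in terms of the numbers and the other digits. -/
private noncomputable def thf (R : Type) [CommRing R] (n k : ℕ) :
    Vr n k → MvPolynomial (Option (Fin (n + 1) × Fin k)) (MvPolynomial (Fin (n + 1)) R)
  | none => X none
  | some (i, j) => Fin.cases (C (X i) - ∑ l : Fin k, X (some (i, l)) * X none ^ ((l : ℕ) + 1))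
      (fun l => X (some (i, l))) j

private noncomputable def th (R : Type) [CommRing R] (n k : ℕ) :
    MvPolynomial (Vr n k) R →+* MvPolynomial (Option (Fin (n + 1) × Fin k)) (MvPolynomial (Fin (n + 1)) R) :=
  eval₂Hom (C.comp C) (thf R n k)

private theorem th_C (R : Type) [CommRing R] (r : R) : th R n k (C r) = C (C r) := by
  rw [th, coe_eval₂Hom, eval₂_C]
  rfl

private theorem th_none (R : Type) [CommRing R] : th R n k (X none) = X none := by
  rw [th, coe_eval₂Hom, eval₂_X, thf]

private theorem th_zero (R : Type) [CommRing R] (i : Fin (n + 1)) :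
    th R n k (X (some (i, 0))) = C (X i) - ∑ l : Fin k, X (some (i, l)) * X none ^ ((l : ℕ) + 1) := by
  rw [th, coe_eval₂Hom, eval₂_X, thf]
  rfl

private theorem th_succ (R : Type) [CommRing R] (i : Fin (n + 1)) (l : Fin k) :
    th R n k (X (some (i, l.succ))) = X (some (i, l)) := by
  rw [th, coe_eval₂Hom, eval₂_X, thf]
  rfl

/-- The inverse. -/
private noncomputable def la (n k : ℕ) :
    MvPolynomial (Option (Fin (n + 1) × Fin k)) (MvPolynomial (Fin (n + 1)) ℚ) →+* MvPolynomial (Vr n k) ℚ :=
  eval₂Hom (aeval (XX k ℚ) : MvPolynomial (Fin (n + 1)) ℚ →ₐ[ℚ] MvPolynomial (Vr n k) ℚ).toRingHom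
    fun o => o.elim (X none) fun ij => X (some (ij.1, ij.2.succ))

private theorem la_C (p : MvPolynomial (Fin (n + 1)) ℚ) : la n k (C p) = ex k p := by
  rw [la, coe_eval₂Hom, eval₂_C]
  rfl

private theorem la_none : la n k (X none) = X none := by
  rw [la, coe_eval₂Hom, eval₂_X]
  rfl

private theorem la_some (i : Fin (n + 1)) (l : Fin k) : la n k (X (some (i, l))) = X (some (i, l.succ)) := by
  rw [la, coe_eval₂Hom, eval₂_X]
  rfl

private theorem la_th (G : MvPolynomial (Vr n k) ℚ) : la n k (th ℚ n k G) = G := by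
  have h : (la n k).comp (th ℚ n k) = RingHom.id _ := by
    apply MvPolynomial.ringHom_ext
    · intro r
      rw [RingHom.comp_apply, th_C, la_C, RingHom.id_apply, ex, aeval_C]
      rfl
    · intro o
      rw [RingHom.comp_apply, RingHom.id_apply]
      rcases o with _ | ⟨i, j⟩
      · rw [th_none, la_none]
      · induction j using Fin.cases with
        | zero =>
          rw [th_zero, map_sub, la_C, map_sum]
          have h1 : ∀ l : Fin k, la n k (X (some (i, l)) * X none ^ ((l : ℕ) + 1)) =
              X (some (i, l.succ)) * X none ^ ((l.succ : Fin (k + 1)) : ℕ) := by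
            intro l
            rw [map_mul, map_pow, la_some, la_none]
            rfl
          rw [Finset.sum_congr rfl fun l _ => h1 l, ex, aeval_X, XX, Fin.sum_univ_succ]
          simp
        | succ l => rw [th_succ, la_some]
  exact RingHom.congr_fun h G

private theorem th_map (G : MvPolynomial (Vr n k) ℤ) :
    map (map (Int.castRingHom ℚ)) (th ℤ n k G) = th ℚ n k (map (Int.castRingHom ℚ) G) := by
  have h : (map (map (Int.castRingHom ℚ))).comp (th ℤ n k) = (th ℚ n k).comp (map (Int.castRingHom ℚ)) := by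
    apply MvPolynomial.ringHom_ext
    · intro r
      rw [RingHom.comp_apply, RingHom.comp_apply, th_C, map_C, map_C, map_C, th_C]
    · intro o
      rw [RingHom.comp_apply, RingHom.comp_apply, map_X]
      rcases o with _ | ⟨i, j⟩
      · rw [th_none, th_none, map_X]
      · induction j using Fin.cases with
        | zero =>
          rw [th_zero, th_zero, map_sub, map_C, map_X, map_sum]
          congr 1
          apply Finset.sum_congr rfl
          intro l _
          rw [map_mul, map_pow, map_X, map_X]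
        | succ l => rw [th_succ, th_succ, map_X]
  exact RingHom.congr_fun h G

private theorem th_eval (G : MvPolynomial (Vr n k) ℤ) (x : Fin (n + 1) → ℤ) (u : ℤ) (w : Fin (n + 1) → Fin (k + 1) → ℤ)
    (h : ∀ i, ∑ j : Fin (k + 1), w i j * u ^ (j : ℕ) = x i) :
    eval (fun o : Option (Fin (n + 1) × Fin k) => o.elim u fun ij => w ij.1 ij.2.succ) (map (eval x) (th ℤ n k G)) =
      eval (fun o : Vr n k => o.elim u fun ij => w ij.1 ij.2) G := by
  have h1 : ((eval (fun o : Option (Fin (n + 1) × Fin k) => o.elim u fun ij => w ij.1 ij.2.succ)).comp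
      (map (eval x))).comp (th ℤ n k) = eval (fun o : Vr n k => o.elim u fun ij => w ij.1 ij.2) := by
    apply MvPolynomial.ringHom_ext
    · intro r
      rw [RingHom.comp_apply, RingHom.comp_apply, th_C, map_C, eval_C, eval_C, eval_C]
    · intro o
      rw [RingHom.comp_apply, RingHom.comp_apply, eval_X]
      rcases o with _ | ⟨i, j⟩
      · rw [th_none, map_X, eval_X]
        rfl
      · induction j using Fin.cases with
        | zero =>
          rw [th_zero, map_sub, map_C, eval_X, map_sub, eval_C, map_sum, map_sum]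
          have h2 : ∀ l : Fin k, eval (fun o : Option (Fin (n + 1) × Fin k) => o.elim u fun ij => w ij.1 ij.2.succ)
              (map (eval x) (X (some (i, l)) * X none ^ ((l : ℕ) + 1))) = w i l.succ * u ^ ((l.succ : Fin (k + 1)) : ℕ) := by
            intro l
            rw [map_mul, map_pow, map_X, map_X, map_mul, map_pow, eval_X, eval_X]
            rfl
          rw [Finset.sum_congr rfl fun l _ => h2 l]
          have h3 := h i
          rw [Fin.sum_univ_succ] at h3
          rw [← h3]
          simp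
        | succ l =>
          rw [th_succ, map_X, eval_X]
          rfl
  exact RingHom.congr_fun h1 G

private theorem eval_mul_hom {σ : Type} (g : MvPolynomial σ ℤ) (b : ℕ) (hg : g.IsHomogeneous b) (m : ℤ) (p : σ → ℤ) :
    eval (fun i => m * p i) g = m ^ b * eval p g := by
  rw [eval_eq, eval_eq, Finset.mul_sum]
  apply Finset.sum_congr rfl
  intro d hd
  have h1 : d.degree = b := by
    by_contra h
    exact (mem_support_iff.1 hd) (hg.coeff_eq_zero h)
  have h2 : ∏ i ∈ d.support, (m * p i) ^ d i = m ^ b * ∏ i ∈ d.support, p i ^ d i := by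
    have h3 : ∀ i ∈ d.support, (m * p i) ^ d i = m ^ d i * p i ^ d i := fun i _ => mul_pow _ _ _
    rw [Finset.prod_congr rfl h3, Finset.prod_mul_distrib, Finset.prod_pow_eq_pow_sum]
    congr 2
  rw [h2]
  ring

private theorem exists_mul {σ : Type} (g : MvPolynomial σ ℤ) (a : ℕ) (p : σ → ℤ)
    (h : eval p (homogeneousComponent a g) ≠ 0) :
    ∃ m : ℤ, 1 ≤ m ∧ m ≤ g.totalDegree + 1 ∧ eval (fun i => m * p i) g ≠ 0 := by
  classical
  obtain ⟨P, hP⟩ : ∃ P : Polynomial ℤ, P = ∑ b ∈ Finset.range (g.totalDegree + 1),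
    Polynomial.C (eval p (homogeneousComponent b g)) * Polynomial.X ^ b := ⟨_, rfl⟩
  have ha : a ∈ Finset.range (g.totalDegree + 1) := by
    rw [Finset.mem_range]
    by_contra h1
    apply h
    rw [homogeneousComponent_eq_zero a g (by omega), map_zero]
  have hPe : ∀ m : ℤ, P.eval m = eval (fun i => m * p i) g := by
    intro m
    conv_rhs => rw [← sum_homogeneousComponent g]
    rw [hP, Polynomial.eval_finsetSum, map_sum]
    apply Finset.sum_congr rfl
    intro b _
    rw [eval_mul_hom _ b (homogeneousComponent_isHomogeneous b g)]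
    simp
    ring
  have hP0 : P ≠ 0 := by
    intro h0
    have h1 := congrArg (fun P => Polynomial.coeff P a) h0
    simp only [Polynomial.coeff_zero] at h1
    rw [hP, Polynomial.finsetSum_coeff] at h1
    simp only [Polynomial.coeff_C_mul, Polynomial.coeff_X_pow] at h1
    rw [Finset.sum_eq_single a] at h1
    · apply h
      simpa using h1
    · intro b _ hb
      simp [Ne.symm hb]
    · intro h2
      exact absurd ha h2
  have hPd : P.natDegree ≤ g.totalDegree := by
    rw [hP]
    apply Polynomial.natDegree_sum_le_of_forall_le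
    intro b hb
    refine (Polynomial.natDegree_C_mul_X_pow_le _ _).trans ?_
    exact Nat.lt_succ_iff.1 (Finset.mem_range.1 hb)
  by_contra hcon
  apply hP0
  apply Polynomial.eq_zero_of_natDegree_lt_card_of_eval_eq_zero' P
    ((Finset.range (g.totalDegree + 1)).image fun m : ℕ => (m : ℤ) + 1)
  · intro m hm
    obtain ⟨m', hm', rfl⟩ := Finset.mem_image.1 hm
    rw [Finset.mem_range] at hm'
    by_contra h1
    apply hcon
    refine ⟨m' + 1, by linarith [Int.natCast_nonneg m'], ?_, ?_⟩
    · have : (m' : ℤ) ≤ g.totalDegree := by exact_mod_cast Nat.lt_succ_iff.1 hm'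
      linarith
    · rw [← hPe]
      exact h1
  · rw [Finset.card_image_of_injective, Finset.card_range]
    · exact Nat.lt_succ_of_le hPd
    · intro a b hab
      have h := hab
      simp only at h
      have h' : (a : ℤ) = b := by linarith
      exact_mod_cast h'

/-- The choice of the digits outside the exceptional set: if `G'` is not divisible by the polynomial `H` at the
expansions, there is a form `G` which is not divisible by `H`, such that for all zeros `p` of `H` with `G(p) ≠ 0` a
multiple `m p`, `m ≠ 0` bounded, has digits at which `G'` does not vanish. -/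
theorem exists_point {n k e : ℕ} (hk : 0 < k) (H : MvPolynomial (Fin (n + 1)) ℤ) (hH : H.IsHomogeneous e)
    (hirr : Irreducible (map (Int.castRingHom ℚ) H)) (G' : MvPolynomial (Vr n k) ℤ)
    (hG' : ¬ map (Int.castRingHom ℚ) (ex k H) ∣ map (Int.castRingHom ℚ) G') :
    ∃ (G : MvPolynomial (Fin (n + 1)) ℤ) (B : ℕ), (∃ e', G.IsHomogeneous e') ∧
      ¬ map (Int.castRingHom ℚ) H ∣ map (Int.castRingHom ℚ) G ∧
      ∀ (p : Fin (n + 1) → ℤ) (u₀ : ℤ), eval p G ≠ 0 → 1 ≤ u₀ → (∀ i, |p i| ≤ u₀ ^ k) →
        ∃ (m : ℤ) (q : Vr n k → ℤ), m ≠ 0 ∧ |m| ≤ B ∧ u₀ ≤ q none ∧ (∀ o, |q o| ≤ B * u₀) ∧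
          (∀ i, ∑ j : Fin (k + 1), q (some (i, j)) * q none ^ (j : ℕ) = m * p i) ∧ eval q G' ≠ 0 := by
  -- a coefficient
  obtain ⟨mm, hmm⟩ : ∃ mm, ¬ map (Int.castRingHom ℚ) H ∣ map (Int.castRingHom ℚ) (coeff mm (th ℤ n k G')) := by
    by_contra hcon
    apply hG'
    have h1 : ∀ mm, map (Int.castRingHom ℚ) H ∣ coeff mm (th ℚ n k (map (Int.castRingHom ℚ) G')) := by
      intro mm
      by_contra h2
      apply hcon
      refine ⟨mm, ?_⟩
      rwa [← th_map, coeff_map] at h2
    rw [← C_dvd_iff_dvd_coeff] at h1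
    obtain ⟨b, hb⟩ := h1
    rw [map_ex]
    have h3 := la_th (map (Int.castRingHom ℚ) G')
    rw [hb, map_mul, la_C] at h3
    exact ⟨_, h3.symm⟩
  obtain ⟨g, hg⟩ : ∃ g, g = coeff mm (th ℤ n k G') := ⟨_, rfl⟩
  rw [← hg] at hmm
  obtain ⟨a, ha⟩ : ∃ a, ¬ map (Int.castRingHom ℚ) H ∣ map (Int.castRingHom ℚ) (homogeneousComponent a g) := by
    by_contra hcon
    apply hmm
    rw [← sum_homogeneousComponent g, map_sum]
    apply Finset.dvd_sum
    intro b _
    by_contra h1
    exact hcon ⟨b, h1⟩
  obtain ⟨B, hB⟩ := exists_digits n k (th ℤ n k G').totalDegree hk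
  refine ⟨homogeneousComponent a g, B * (g.totalDegree + 1) + (g.totalDegree + 1),
    ⟨a, homogeneousComponent_isHomogeneous a g⟩, ha, ?_⟩
  intro p u₀ hp hu₀ hpu
  obtain ⟨m, hm1, hm2, hm3⟩ := exists_mul g a p hp
  have hM0 : (0 : ℤ) ≤ g.totalDegree := by positivity
  have hu1 : 1 ≤ ((g.totalDegree : ℤ) + 1) * u₀ := by nlinarith
  obtain ⟨F, hF⟩ : ∃ F : MvPolynomial (Option (Fin (n + 1) × Fin k)) ℤ, F = map (eval fun i => m * p i) (th ℤ n k G') :=
    ⟨_, rfl⟩
  have hF0 : F ≠ 0 := by
    intro h0
    apply hm3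
    have h1 := congrArg (coeff mm) h0
    rw [hF, coeff_map, coeff_zero, ← hg] at h1
    exact h1
  have hFd : F.totalDegree ≤ (th ℤ n k G').totalDegree := by
    rw [hF]
    exact Finset.sup_mono (support_map_subset _ _)
  obtain ⟨u, w, hu2, hu3, hw, hsum, hne⟩ := hB F hF0 hFd (fun i => m * p i) (((g.totalDegree : ℤ) + 1) * u₀) hu1 (by
    intro i
    rw [abs_mul, mul_pow]
    have h1 : |m| ≤ (g.totalDegree : ℤ) + 1 := by
      rw [abs_of_nonneg (by linarith)]
      exact hm2
    have h2 : (g.totalDegree : ℤ) + 1 ≤ ((g.totalDegree : ℤ) + 1) ^ k := by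
      apply le_self_pow₀ (by linarith) hk.ne'
    exact mul_le_mul (h1.trans h2) (hpu i) (abs_nonneg _) (by positivity))
  have hBM : (B : ℤ) * (((g.totalDegree : ℤ) + 1) * u₀) ≤
      ((B * (g.totalDegree + 1) + (g.totalDegree + 1) : ℕ) : ℤ) * u₀ := by
    push_cast
    nlinarith
  refine ⟨m, fun o => o.elim u fun ij => w ij.1 ij.2, by omega, ?_, ?_, ?_, ?_, ?_⟩
  · rw [abs_of_nonneg (by linarith)]
    push_cast
    have : (0 : ℤ) ≤ B * ((g.totalDegree : ℤ) + 1) := by positivity
    linarith
  · show u₀ ≤ u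
    nlinarith
  · intro o
    cases o with
    | none =>
      show |u| ≤ _
      have : 0 ≤ u := by linarith
      rw [abs_of_nonneg this]
      exact hu3.trans hBM
    | some ij => exact (hw ij.1 ij.2).trans hBM
  · intro i
    exact hsum i
  · rw [← th_eval G' (fun i => m * p i) u w hsum, ← hF]
    exact hne

end

end Pool.Agent.Lib.MP_17a322_nt.GE
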