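import Mathlib

/-!
The inequality for the gradient of an irreducible form at its integral zeros with the exponent `(1 + o(1)) n`:
definitions.
-/

namespace Pool.Agent.Lib.MP_17a322_nt.GE

open MvPolynomial

/-- The inequality for the gradients of irreducible forms with the exponent `(1 + o(1)) n`: for every `δ > 0` there
are arbitrarily large `n` such that for every form `H` in `n + 1` variables with integer coefficients which is
irreducible over `ℚ`, the primitive integral zeros `p` of `H` outside a proper closed subset of `H = 0` satisfy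
`|∇H(p)| ≤ C |p| ^ ((1 + δ) n) gcd(∇H(p))` (`‖ ‖` is the maximum of the absolute values of the coordinates). The
constant `C` depends on `H`. -/
def GradAsy : Prop :=
  ∀ δ : ℝ, 0 < δ → ∀ n₀ : ℕ, ∃ n : ℕ, n₀ ≤ n ∧ ∀ (e : ℕ) (H : MvPolynomial (Fin (n + 1)) ℤ), H.IsHomogeneous e →
    Irreducible (map (Int.castRingHom ℚ) H) →
    ∃ (G : MvPolynomial (Fin (n + 1)) ℤ) (C : ℝ), (∃ e', G.IsHomogeneous e') ∧
      ¬ map (Int.castRingHom ℚ) H ∣ map (Int.castRingHom ℚ) G ∧
      ∀ p : Fin (n + 1) → ℤ, Finset.univ.gcd p = 1 → eval p H = 0 → eval p G ≠ 0 →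
        ‖fun j => eval p (pderiv j H)‖ ≤
          C * ‖p‖ ^ ((1 + δ) * n) * ((Finset.univ.gcd fun j => eval p (pderiv j H) : ℤ) : ℝ)

/-- The inequality for the gradient of one form with the exponent `a`. -/
def GradE {n : ℕ} (a : ℝ) (H : MvPolynomial (Fin (n + 1)) ℤ) : Prop :=
  ∃ (G : MvPolynomial (Fin (n + 1)) ℤ) (C : ℝ), (∃ e', G.IsHomogeneous e') ∧
    ¬ map (Int.castRingHom ℚ) H ∣ map (Int.castRingHom ℚ) G ∧
    ∀ p : Fin (n + 1) → ℤ, Finset.univ.gcd p = 1 → eval p H = 0 → eval p G ≠ 0 →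
      ‖fun j => eval p (pderiv j H)‖ ≤
        C * ‖p‖ ^ a * ((Finset.univ.gcd fun j => eval p (pderiv j H) : ℤ) : ℝ)

/-- The weak inequality with the constant `A`: for every `δ > 0` there are arbitrarily large `n` such that the
inequality with the exponent `(A + δ) n` holds for all irreducible forms in `n + 1` variables. -/
def GradW (A : ℝ) : Prop :=
  ∀ δ : ℝ, 0 < δ → ∀ n₀ : ℕ, ∃ n : ℕ, n₀ ≤ n ∧ ∀ (e : ℕ) (H : MvPolynomial (Fin (n + 1)) ℤ), H.IsHomogeneous e →
    Irreducible (map (Int.castRingHom ℚ) H) → GradE ((A + δ) * n) H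

/-- The inequality with the exponent `a` for one irreducible polynomial `h`, at its integral zeros. -/
def AffE {σ : Type} [Fintype σ] (a : ℝ) (h : MvPolynomial σ ℤ) : Prop :=
  ∃ (G : MvPolynomial σ ℤ) (C : ℝ), ¬ map (Int.castRingHom ℚ) h ∣ map (Int.castRingHom ℚ) G ∧
    ∀ x : σ → ℤ, eval x h = 0 → eval x G ≠ 0 →
      ‖fun j => eval x (pderiv j h)‖ ≤
        C * (max 1 ‖x‖) ^ a * ((Finset.univ.gcd fun j => eval x (pderiv j h) : ℤ) : ℝ)

end Pool.Agent.Lib.MP_17a322_nt.GE
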