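import Pool.Agent.Lib.MP_17a322_nt.GE.Defs

/-!
Additional variables: the inequality for the gradient of a polynomial, seen as a polynomial in more variables, implies
the inequality for the polynomial.
-/

namespace Pool.Agent.Lib.MP_17a322_nt.GE

open MvPolynomial

private theorem Pad_rename {R : Type*} [CommRing R] {σ τ : Type} (p : MvPolynomial σ R) :
    sumAlgEquiv R τ σ (rename Sum.inr p) = C p := by
  induction p using MvPolynomial.induction_on with
  | C a => rw [rename_C, sumAlgEquiv_C_inl]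
  | add p q hp hq => rw [map_add, map_add, hp, hq, C_add]
  | mul_X p i hp => rw [map_mul, map_mul, hp, rename_X, sumAlgEquiv_X_inr, C_mul]

private theorem Pad_map {R S : Type*} [CommRing R] [CommRing S] (f : R →+* S) {σ τ : Type}
    (p : MvPolynomial (τ ⊕ σ) R) :
    sumAlgEquiv S τ σ (map f p) = map (map f) (sumAlgEquiv R τ σ p) := by
  induction p using MvPolynomial.induction_on with
  | C a => rw [map_C, sumAlgEquiv_C_inl, sumAlgEquiv_C_inl, map_C, map_C]
  | add p q hp hq => rw [map_add, map_add, map_add, map_add, hp, hq]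
  | mul_X p i hp =>
    rw [map_mul, map_mul, map_mul, map_mul, hp, map_X]
    congr 1
    rcases i with i | i
    · rw [sumAlgEquiv_X_inl, sumAlgEquiv_X_inl, map_X]
    · rw [sumAlgEquiv_X_inr, sumAlgEquiv_X_inr, map_C, map_X]

private theorem Pad_eval {R : Type*} [CommRing R] {σ τ : Type} (p : MvPolynomial (τ ⊕ σ) R) (y : τ → R) (x : σ → R) :
    eval (Sum.elim y x) p = eval y (map (eval x) (sumAlgEquiv R τ σ p)) := by
  induction p using MvPolynomial.induction_on with
  | C a => rw [eval_C, sumAlgEquiv_C_inl, map_C, eval_C, eval_C]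
  | add p q hp hq => rw [map_add, map_add, map_add, map_add, hp, hq]
  | mul_X p i hp =>
    rw [map_mul, map_mul, map_mul, map_mul, hp, eval_X]
    congr 1
    rcases i with i | i
    · rw [sumAlgEquiv_X_inl, map_X, eval_X, Sum.elim_inl]
    · rw [sumAlgEquiv_X_inr, map_C, eval_X, eval_C, Sum.elim_inr]

/-- An irreducible polynomial over a field stays irreducible in more variables. -/
theorem pad_irreducible {K : Type*} [Field K] {σ τ : Type} {h : MvPolynomial σ K} (hh : Irreducible h) :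
    Irreducible (rename (Sum.inr : σ → τ ⊕ σ) h) := by
  rw [UniqueFactorizationMonoid.irreducible_iff_prime] at hh ⊢
  rw [← MulEquiv.prime_iff (sumAlgEquiv K τ σ), Pad_rename]
  exact (MvPolynomial.prime_C_iff τ).2 hh

private theorem Pad_point {τ : Type} [Fintype τ] (P : MvPolynomial τ ℤ) (hP : P ≠ 0) {D : ℕ} (hD : P.totalDegree ≤ D) :
    ∃ y : τ → ℤ, (∀ j, |y j| ≤ D) ∧ eval y P ≠ 0 := by
  classical
  by_contra hcon
  push Not at hcon
  refine hP (eq_zero_of_eval_zero_at_prod_finset P (fun _ => (Finset.range (D + 1)).image fun j : ℕ => (j : ℤ)) ?_ ?_)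
  · intro i
    rw [Finset.card_image_of_injective _ Nat.cast_injective, Finset.card_range]
    exact Nat.lt_succ_of_le ((degreeOf_le_totalDegree _ _).trans hD)
  · intro y hy
    refine hcon y fun j => ?_
    obtain ⟨t, ht, hty⟩ := Finset.mem_image.1 (hy j)
    rw [← hty, abs_of_nonneg (by positivity)]
    exact_mod_cast Nat.lt_succ_iff.1 (Finset.mem_range.1 ht)

private theorem Pad_deg {R S : Type*} [CommRing R] [CommRing S] (f : R →+* S) {τ : Type} (p : MvPolynomial τ R) :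
    (map f p).totalDegree ≤ p.totalDegree := by
  unfold totalDegree
  exact Finset.sup_mono (support_map_subset f p)

/-- Additional variables: the inequality for `h`, seen as a polynomial in more variables, implies the one for `h`. -/
theorem affE_pad {σ τ : Type} [Fintype σ] [Fintype τ] {a : ℝ} (ha : 0 ≤ a) (h : MvPolynomial σ ℤ)
    (hA : AffE a (rename (Sum.inr : σ → τ ⊕ σ) h)) : AffE a h := by
  classical
  obtain ⟨G', C', hG', hA⟩ := hA
  obtain ⟨m, hm⟩ : ∃ m, ¬ map (Int.castRingHom ℚ) h ∣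
      map (Int.castRingHom ℚ) (coeff m (sumAlgEquiv ℤ τ σ G')) := by
    by_contra hcon
    push Not at hcon
    refine hG' ?_
    rw [map_rename, ← map_dvd_iff (sumAlgEquiv ℚ τ σ), Pad_rename, Pad_map, C_dvd_iff_dvd_coeff]
    intro i
    rw [coeff_map]
    exact hcon i
  obtain ⟨D, hD⟩ : ∃ D : ℕ, D = (sumAlgEquiv ℤ τ σ G').totalDegree := ⟨_, rfl⟩
  refine ⟨coeff m (sumAlgEquiv ℤ τ σ G'), |C'| * ((D : ℝ) + 1) ^ a, hm, ?_⟩
  intro x hx hxG
  obtain ⟨y, hy, hyG⟩ := Pad_point (map (eval x) (sumAlgEquiv ℤ τ σ G')) (by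
    intro h0
    refine hxG ?_
    rw [← coeff_map, h0, coeff_zero]) (D := D) (by rw [hD]; exact Pad_deg _ _)
  rw [← Pad_eval] at hyG
  have hx' : eval (Sum.elim y x) (rename (Sum.inr : σ → τ ⊕ σ) h) = 0 := by
    rw [eval_rename]
    exact hx
  have h1 := hA (Sum.elim y x) hx' hyG
  have hr : ∀ j : σ, eval (Sum.elim y x) (pderiv (Sum.inr j) (rename (Sum.inr : σ → τ ⊕ σ) h)) =
      eval x (pderiv j h) := by
    intro j
    rw [pderiv_rename Sum.inr_injective, eval_rename]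
    rfl
  obtain ⟨F, hF⟩ : ∃ F : τ ⊕ σ → ℤ, F = fun j => eval (Sum.elim y x) (pderiv j (rename (Sum.inr : σ → τ ⊕ σ) h)) :=
    ⟨_, rfl⟩
  obtain ⟨g, hg⟩ : ∃ g : σ → ℤ, g = fun j => eval x (pderiv j h) := ⟨_, rfl⟩
  have hFg : ∀ j, F (Sum.inr j) = g j := by
    intro j
    rw [hF, hg]
    exact hr j
  rw [← hF] at h1
  rw [← hg]
  by_cases hg0 : g = 0
  · rw [hg0, norm_zero, Finset.gcd_eq_zero_iff.2 (by simp)]
    simp
  have hnn : ∀ {β : Type} [Fintype β] (f : β → ℤ), 0 ≤ Finset.univ.gcd f := by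
    intro β _ f
    have h2 := Int.abs_eq_normalize (Finset.univ.gcd f)
    rw [Finset.normalize_gcd] at h2
    rw [← h2]
    exact abs_nonneg _
  have hgcd1 : 0 < Finset.univ.gcd g := by
    refine lt_of_le_of_ne (hnn g) fun h2 => hg0 ?_
    funext j
    exact Finset.gcd_eq_zero_iff.1 h2.symm j (Finset.mem_univ j)
  have hle : ((Finset.univ.gcd F : ℤ) : ℝ) ≤ ((Finset.univ.gcd g : ℤ) : ℝ) := by
    have h2 : Finset.univ.gcd F ∣ Finset.univ.gcd g := by
      refine Finset.dvd_gcd fun j _ => ?_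
      rw [← hFg j]
      exact Finset.gcd_dvd (Finset.mem_univ _)
    exact_mod_cast Int.le_of_dvd hgcd1 h2
  have hnorm : ‖g‖ ≤ ‖F‖ := by
    rw [pi_norm_le_iff_of_nonneg (norm_nonneg _)]
    intro j
    rw [← hFg j]
    exact norm_le_pi_norm F _
  have hz : max 1 ‖(Sum.elim y x : τ ⊕ σ → ℤ)‖ ≤ ((D : ℝ) + 1) * max 1 ‖x‖ := by
    have h3 : (1 : ℝ) ≤ max 1 ‖x‖ := le_max_left _ _
    have h4 : (0 : ℝ) ≤ D := Nat.cast_nonneg D
    refine max_le (by nlinarith) ?_
    rw [pi_norm_le_iff_of_nonneg (by positivity)]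
    rintro (j | j)
    · rw [Sum.elim_inl, Int.norm_eq_abs]
      have h5 : ((|y j| : ℤ) : ℝ) ≤ ((D : ℤ) : ℝ) := by exact_mod_cast hy j
      push_cast at h5
      nlinarith
    · rw [Sum.elim_inr]
      have h5 := norm_le_pi_norm x j
      have h6 : ‖x‖ ≤ max 1 ‖x‖ := le_max_right _ _
      nlinarith
  have hpow : (max 1 ‖(Sum.elim y x : τ ⊕ σ → ℤ)‖) ^ a ≤ ((D : ℝ) + 1) ^ a * (max 1 ‖x‖) ^ a := by
    rw [← Real.mul_rpow (by positivity) (by positivity)]
    exact Real.rpow_le_rpow (by positivity) hz ha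
  have hgF : (0 : ℝ) ≤ ((Finset.univ.gcd F : ℤ) : ℝ) := by exact_mod_cast hnn F
  calc ‖g‖ ≤ ‖F‖ := hnorm
    _ ≤ C' * (max 1 ‖(Sum.elim y x : τ ⊕ σ → ℤ)‖) ^ a * ((Finset.univ.gcd F : ℤ) : ℝ) := h1
    _ ≤ |C'| * (((D : ℝ) + 1) ^ a * (max 1 ‖x‖) ^ a) * ((Finset.univ.gcd g : ℤ) : ℝ) := by
      refine mul_le_mul (mul_le_mul (le_abs_self C') hpow (by positivity) (abs_nonneg _)) hle hgF (by positivity)
    _ = |C'| * ((D : ℝ) + 1) ^ a * (max 1 ‖x‖) ^ a * ((Finset.univ.gcd g : ℤ) : ℝ) := by ring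

end Pool.Agent.Lib.MP_17a322_nt.GE
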