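import Pool.Agent.Lib.MP_17a322_nt.GE.Weak
import Pool.Agent.Lib.MP_17a322_nt.GR.Q0

/-!
The inequality for the gradients with the exponent `(1 + o(1)) n` is equivalent to the one with the exponent `n + ε`.
-/

namespace Pool.Agent.Lib.MP_17a322_nt.GE

open MvPolynomial

open Pool.Agent.Lib.MP_17a322_nt.GR

theorem asy_iff : GradAsy ↔ GradInt := by
  have h : GradW 1 ↔ _ := weak_iff le_rfl
  have h0 : ∀ (n : ℕ) (ε : ℝ), (1 : ℝ) * (n + 1) - 1 + ε = n + ε := fun n ε => by ring
  constructor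
  · intro h1 n e H ε hH hirr hε
    have h2 := h.1 h1 n e H ε hH hirr hε
    rw [h0] at h2
    exact h2
  · intro h1
    refine h.2 fun n e H ε hH hirr hε => ?_
    rw [h0]
    exact h1 n e H ε hH hirr hε

theorem gradInt_of_asy (h : GradAsy) : GradInt := asy_iff.1 h

end Pool.Agent.Lib.MP_17a322_nt.GE
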