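import Pool.Agent.Lib.MP_17a322_nt.GE.Dg

/-!
The inequality for the gradients with the exponent `n + δ e`, `e` the degree, for infinitely many `n` is equivalent to
the one with the exponent `n + ε` for all `n`.
-/

namespace Pool.Agent.Lib.MP_17a322_nt.GE

open MvPolynomial

open Pool.Agent.Lib.MP_17a322_nt.GR

/-- The inequality for the gradients of irreducible forms with an exponent which grows linearly with the degree: for
every `δ > 0` there are arbitrarily large `n` such that for every `e` and every form `H` of degree `e` in `n + 1`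
variables with integer coefficients which is irreducible over `ℚ`, the primitive integral zeros `p` of `H` outside a
proper closed subset of `H = 0` satisfy `|∇H(p)| ≤ C |p| ^ (n + δ e) gcd(∇H(p))` (`‖ ‖` is the maximum of the absolute
values of the coordinates). The constant `C` depends on `H`. -/
def GradLin : Prop :=
  ∀ δ : ℝ, 0 < δ → ∀ n₀ : ℕ, ∃ n, n₀ ≤ n ∧ ∀ (e : ℕ) (H : MvPolynomial (Fin (n + 1)) ℤ), H.IsHomogeneous e →
    Irreducible (map (Int.castRingHom ℚ) H) →
    ∃ (G : MvPolynomial (Fin (n + 1)) ℤ) (C : ℝ), (∃ e', G.IsHomogeneous e') ∧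
      ¬ map (Int.castRingHom ℚ) H ∣ map (Int.castRingHom ℚ) G ∧
      ∀ p : Fin (n + 1) → ℤ, Finset.univ.gcd p = 1 → eval p H = 0 → eval p G ≠ 0 →
        ‖fun j => eval p (pderiv j H)‖ ≤
          C * ‖p‖ ^ (n + δ * e) * ((Finset.univ.gcd fun j => eval p (pderiv j H) : ℤ) : ℝ)

private theorem Lin_deg_XX {n k : ℕ} (i : Fin (n + 1)) : (XX k ℚ i : MvPolynomial (Vr n k) ℚ).totalDegree ≤ k + 1 := by
  unfold XX
  refine totalDegree_finsetSum_le fun j _ => (totalDegree_mul _ _).trans ?_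
  rw [totalDegree_X]
  refine (Nat.add_le_add_left (totalDegree_pow _ _) 1).trans ?_
  rw [totalDegree_X]
  have := j.2
  omega

theorem deg_ex {n k e : ℕ} (H : MvPolynomial (Fin (n + 1)) ℚ) (hH : H.IsHomogeneous e) :
    (ex k H).totalDegree ≤ e * (k + 1) := by
  classical
  unfold ex
  rw [aeval_def, eval₂_eq]
  refine totalDegree_finsetSum_le fun d hd => ?_
  refine (totalDegree_mul _ _).trans ?_
  rw [algebraMap_eq, totalDegree_C, zero_add]
  refine (totalDegree_finsetProd _ _).trans ?_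
  calc ∑ i ∈ d.support, (XX k ℚ i ^ d i).totalDegree ≤ ∑ i ∈ d.support, d i * (k + 1) :=
        Finset.sum_le_sum fun i _ => (totalDegree_pow _ _).trans (Nat.mul_le_mul_left _ (Lin_deg_XX i))
    _ = (d.sum fun _ e => e) * (k + 1) := by rw [Finsupp.sum, Finset.sum_mul]
    _ ≤ _ := Nat.mul_le_mul_right _ ((le_totalDegree hd).trans hH.totalDegree_le)

theorem gradInt_of_lin (h : GradLin) : GradInt := by
  intro n e H ε hH hirr hε
  -- the choice of `δ` and of the dimension
  obtain ⟨δ, hδ⟩ : ∃ δ : ℝ, δ = ε / (4 * (e + 1)) := ⟨_, rfl⟩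
  have hδ0 : 0 < δ := by
    rw [hδ]
    positivity
  have hδe : δ * e ≤ ε / 4 := by
    rw [hδ, div_mul_eq_mul_div, div_le_div_iff₀ (by positivity) (by norm_num)]
    have he : (0 : ℝ) ≤ e := Nat.cast_nonneg e
    nlinarith
  obtain ⟨k₀, hk₀, hk₁⟩ : ∃ k₀ : ℕ, 1 ≤ k₀ ∧ 2 * ((n : ℝ) + 1) ≤ k₀ * (ε / 2) := by
    obtain ⟨j, hj⟩ := exists_nat_ge (2 * ((n : ℝ) + 1) / (ε / 2))
    refine ⟨max 1 j, by omega, ?_⟩
    rw [div_le_iff₀ (by positivity)] at hj
    refine hj.trans (mul_le_mul_of_nonneg_right ?_ (by positivity))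
    exact_mod_cast le_max_right _ _
  obtain ⟨N, hN, hE⟩ := h δ hδ0 (1 + (n + 1) * (k₀ + 1))
  obtain ⟨q, hq⟩ : ∃ q : ℕ, q = (N - 1) / (n + 1) := ⟨_, rfl⟩
  have hq1 : (n + 1) * q ≤ N - 1 := by
    rw [hq]
    exact Nat.mul_div_le _ _
  have hq2 : N - 1 < (n + 1) * q + (n + 1) := by
    rw [hq]
    exact Nat.lt_mul_div_succ _ (Nat.succ_pos n)
  have hqk : k₀ + 1 ≤ q := by
    rw [hq, Nat.le_div_iff_mul_le (Nat.succ_pos n)]
    have h1 : (k₀ + 1) * (n + 1) ≤ N - 1 := by
      rw [mul_comm]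
      omega
    exact h1
  obtain ⟨k, hk⟩ : ∃ k : ℕ, q = k + 1 := ⟨q - 1, by omega⟩
  have hk1 : 0 < k := by omega
  have hkk : k₀ ≤ k := by omega
  obtain ⟨t, ht⟩ : ∃ t : ℕ, N = t + (1 + (n + 1) * (k + 1)) := by
    rw [hk] at hq1
    exact ⟨N - (1 + (n + 1) * (k + 1)), by omega⟩
  have htn : t ≤ n := by
    rw [hk] at hq2
    omega
  have hcard : Fintype.card (Fin t ⊕ Vr n k) = N := by
    rw [Fintype.card_sum, Fintype.card_fin, Fintype.card_option, Fintype.card_prod, Fintype.card_fin, Fintype.card_fin,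
      ht]
    ring
  have hkR : (1 : ℝ) ≤ k := by exact_mod_cast hk1
  have hNR : (N : ℝ) = t + (1 + (n + 1) * (k + 1)) := by
    rw [ht]
    push_cast
    ring
  have htR : (t : ℝ) ≤ n := by exact_mod_cast htn
  have htR0 : (0 : ℝ) ≤ t := Nat.cast_nonneg t
  have hnR0 : (0 : ℝ) ≤ n := Nat.cast_nonneg n
  -- the degree
  obtain ⟨d, hd⟩ : ∃ d : ℕ,
      d = (map (Int.castRingHom ℚ) (rename (Sum.inr : Vr n k → Fin t ⊕ Vr n k) (ex k H))).totalDegree := ⟨_, rfl⟩
  have hde : d ≤ e * (k + 1) := by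
    rw [hd, map_rename, map_ex]
    exact (totalDegree_rename_le _ _).trans (deg_ex _ (hH.map _))
  have hdR : (d : ℝ) ≤ e * (k + 1) := by exact_mod_cast hde
  obtain ⟨κ, hκ⟩ : ∃ κ : ℝ, κ = N + δ * d := ⟨_, rfl⟩
  have hδd : 0 ≤ δ * d := by positivity
  have hkN : (k : ℝ) ≤ N := by
    rw [hNR]
    nlinarith
  have hκk : (k : ℝ) ≤ κ := by
    rw [hκ]
    linarith
  have hκ0 : 0 ≤ κ := (Nat.cast_nonneg k).trans hκk
  have hexp : κ - k ≤ (n + ε) * k := by
    rw [hκ, hNR]
    have h1 : δ * d ≤ ε / 2 * k := by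
      calc δ * d ≤ δ * (e * (k + 1)) := mul_le_mul_of_nonneg_left hdR hδ0.le
        _ = δ * e * (k + 1) := by ring
        _ ≤ ε / 4 * (k + 1) := mul_le_mul_of_nonneg_right hδe (by positivity)
        _ ≤ ε / 2 * k := by nlinarith
    have h4 : (k₀ : ℝ) * (ε / 2) ≤ k * (ε / 2) :=
      mul_le_mul_of_nonneg_right (by exact_mod_cast hkk) (by positivity)
    nlinarith
  have hirr' : Irreducible (map (Int.castRingHom ℚ) (rename (Sum.inr : Vr n k → Fin t ⊕ Vr n k) (ex k H))) := by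
    rw [map_rename, map_ex]
    exact pad_irreducible (ex_irreducible k hirr)
  exact grad_of_digits hk1 hκk hexp H hH hirr
    (affE_pad hκ0 (ex k H) (aff_of_grad_deg N κ hcard (rename Sum.inr (ex k H)) hirr' fun H' h1 h2 => by
      rw [hκ, hd]
      exact hE _ H' h1 h2))

theorem lin_of_gradInt (h : GradInt) : GradLin := by
  intro δ hδ n₀
  refine ⟨n₀, le_refl _, fun e H hH hirr => ?_⟩
  have he : 0 < e := by
    by_contra hcon
    have h0 : e = 0 := by omega
    subst h0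
    have h1 : (map (Int.castRingHom ℚ) H).totalDegree = 0 := Nat.le_zero.1 (hH.map _).totalDegree_le
    rw [totalDegree_eq_zero_iff_eq_C] at h1
    obtain ⟨c, hc⟩ : ∃ c : ℚ, c = coeff 0 (map (Int.castRingHom ℚ) H) := ⟨_, rfl⟩
    rw [← hc] at h1
    by_cases hc0 : c = 0
    · exact hirr.ne_zero (by rw [h1, hc0, C_0])
    · exact hirr.not_isUnit (by
        rw [h1]
        exact (isUnit_iff_ne_zero.2 hc0).map C)
  exact h n₀ e H (δ * e) hH hirr (by positivity)

/-- The inequality for the gradients with the exponent `n + δ e`, `e` the degree, for infinitely many `n` is equivalent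
to the one with the exponent `n + ε` for all `n`. -/
theorem lin_iff : GradLin ↔ GradInt := ⟨gradInt_of_lin, lin_of_gradInt⟩

end Pool.Agent.Lib.MP_17a322_nt.GE
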