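import Pool.Agent.Lib.MP_17a322_nt.GE.Defs

/-!
The inequality for the gradients of the irreducible forms in `N + 1` variables with the exponent `a` implies the one
for the irreducible forms in fewer variables with the same exponent.
-/

namespace Pool.Agent.Lib.MP_17a322_nt.GE

open MvPolynomial

/-- the form in one more variable -/
private theorem Mono_succ {K : Type*} [Field K] {m : ℕ} (h : MvPolynomial (Fin m) K) :
    finSuccEquiv K m (rename Fin.succ h) = Polynomial.C h := by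
  have h1 : ((finSuccEquiv K m).toAlgHom.comp (rename Fin.succ) : MvPolynomial (Fin m) K →ₐ[K] _) =
      (Algebra.ofId (MvPolynomial (Fin m) K) (Polynomial (MvPolynomial (Fin m) K))).restrictScalars K := by
    refine algHom_ext fun i => ?_
    simp only [AlgHom.comp_apply, rename_X, AlgEquiv.coe_toAlgHom, finSuccEquiv_X_succ]
    rfl
  exact DFunLike.congr_fun h1 h

private theorem Mono_irr {K : Type*} [Field K] {m : ℕ} {h : MvPolynomial (Fin m) K} (hh : Irreducible h) :
    Irreducible (rename (Fin.succ : Fin m → Fin (m + 1)) h) := by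
  rw [UniqueFactorizationMonoid.irreducible_iff_prime] at hh ⊢
  rw [← MulEquiv.prime_iff (finSuccEquiv K m)]
  rw [Mono_succ]
  exact Polynomial.prime_C_iff.2 hh

/-- The specialisation of the new variable to a multiple of `X_j`. -/
private theorem Mono_spec {m : ℕ} {h : MvPolynomial (Fin m) ℚ} (hh : Irreducible h) {j : Fin m} (hj : ¬ h ∣ X j)
    {G : MvPolynomial (Fin (m + 1)) ℚ} (hG : ¬ rename Fin.succ h ∣ G) :
    ∃ c : ℤ, ¬ h ∣ aeval (Fin.cons (C (c : ℚ) * X j) X : Fin (m + 1) → MvPolynomial (Fin m) ℚ) G := by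
  have hp := UniqueFactorizationMonoid.irreducible_iff_prime.1 hh
  obtain ⟨P, hP⟩ : ∃ P, P = finSuccEquiv ℚ m G := ⟨_, rfl⟩
  obtain ⟨k, hk⟩ : ∃ k, ¬ h ∣ P.coeff k := by
    by_contra! hc
    apply hG
    have h1 := (Polynomial.C_dvd_iff_dvd_coeff h P).2 hc
    rw [← Mono_succ, hP] at h1
    exact (map_dvd_iff (finSuccEquiv ℚ m)).1 h1
  have hI : (Ideal.span {h}).IsPrime := (Ideal.span_singleton_prime hp.ne_zero).2 hp
  obtain ⟨Q, hQ⟩ : ∃ Q : Polynomial (MvPolynomial (Fin m) ℚ ⧸ Ideal.span {h}),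
      Q = (P.map (Ideal.Quotient.mk (Ideal.span {h}))).comp
        (Polynomial.C (Ideal.Quotient.mk (Ideal.span {h}) (X j)) * Polynomial.X) := ⟨_, rfl⟩
  have hQ0 : Q ≠ 0 := by
    intro h0
    have h1 : Q.coeff k = 0 := by rw [h0, Polynomial.coeff_zero]
    rw [hQ, Polynomial.comp_C_mul_X_coeff, Polynomial.coeff_map, mul_eq_zero] at h1
    rcases h1 with h1 | h1
    · exact hk (Ideal.mem_span_singleton.1 (Ideal.Quotient.eq_zero_iff_mem.1 h1))
    · exact pow_ne_zero k (fun h2 => hj (Ideal.mem_span_singleton.1 (Ideal.Quotient.eq_zero_iff_mem.1 h2))) h1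
  have hinj : Function.Injective (Int.cast : ℤ → MvPolynomial (Fin m) ℚ ⧸ Ideal.span {h}) := by
    have h1 : Function.Injective (algebraMap ℚ (MvPolynomial (Fin m) ℚ ⧸ Ideal.span {h})) := RingHom.injective _
    intro a b hab
    have h2 : algebraMap ℚ (MvPolynomial (Fin m) ℚ ⧸ Ideal.span {h}) a =
        algebraMap ℚ (MvPolynomial (Fin m) ℚ ⧸ Ideal.span {h}) b := by
      rw [map_intCast, map_intCast]
      exact hab
    exact_mod_cast h1 h2
  obtain ⟨c, hc⟩ : ∃ c : ℤ, Q.eval (c : MvPolynomial (Fin m) ℚ ⧸ Ideal.span {h}) ≠ 0 := by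
    by_contra! hc
    refine hQ0 (Polynomial.eq_zero_of_infinite_isRoot Q ?_)
    exact (Set.infinite_range_of_injective hinj).mono (by
      rintro _ ⟨c, rfl⟩
      exact hc c)
  refine ⟨c, fun hdvd => hc ?_⟩
  have h1 : aeval (Fin.cons (C (c : ℚ) * X j) X : Fin (m + 1) → MvPolynomial (Fin m) ℚ) G =
      P.eval (C (c : ℚ) * X j) := by
    rw [hP]
    have h2 : (aeval (Fin.cons (C (c : ℚ) * X j) X : Fin (m + 1) → MvPolynomial (Fin m) ℚ) :
        MvPolynomial (Fin (m + 1)) ℚ →ₐ[ℚ] MvPolynomial (Fin m) ℚ) =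
        ((Polynomial.aeval (C (c : ℚ) * X j : MvPolynomial (Fin m) ℚ)).restrictScalars ℚ).comp
          (finSuccEquiv ℚ m).toAlgHom := by
      refine algHom_ext fun i => ?_
      refine Fin.cases ?_ (fun i => ?_) i
      · simp only [aeval_X, Fin.cons_zero, AlgHom.comp_apply, AlgEquiv.coe_toAlgHom, finSuccEquiv_X_zero]
        exact (Polynomial.aeval_X _).symm
      · simp only [aeval_X, Fin.cons_succ, AlgHom.comp_apply, AlgEquiv.coe_toAlgHom, finSuccEquiv_X_succ]
        exact (Polynomial.aeval_C (C (c : ℚ) * X j : MvPolynomial (Fin m) ℚ) (X i : MvPolynomial (Fin m) ℚ)).symm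
    exact DFunLike.congr_fun h2 G
  rw [h1] at hdvd
  have h3 := Ideal.Quotient.eq_zero_iff_mem.2 (Ideal.mem_span_singleton.2 hdvd)
  rw [hQ, Polynomial.eval_comp, Polynomial.eval_mul, Polynomial.eval_C, Polynomial.eval_X, mul_comm,
    ← h3]
  have h4 : (c : MvPolynomial (Fin m) ℚ ⧸ Ideal.span {h}) = Ideal.Quotient.mk (Ideal.span {h}) (C (c : ℚ)) := by
    rw [map_intCast, map_intCast]
  rw [h4, ← map_mul, Polynomial.eval_map, Polynomial.eval₂_at_apply]

private theorem Mono_cast {σ : Type} (p : σ → ℤ) (F : MvPolynomial σ ℤ) :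
    eval (fun i => (p i : ℚ)) (map (Int.castRingHom ℚ) F) = ((eval p F : ℤ) : ℚ) := by
  induction F using MvPolynomial.induction_on with
  | C a => rw [map_C, eval_C, eval_C, eq_intCast]
  | add p q hp hq => rw [map_add, map_add, map_add, hp, hq, Int.cast_add]
  | mul_X p i hp => rw [map_mul, map_mul, map_mul, hp, map_X, eval_X, eval_X, Int.cast_mul]

private theorem Mono_map {σ τ : Type} (ψ : σ → MvPolynomial τ ℤ) (ψ' : σ → MvPolynomial τ ℚ)
    (h : ∀ i, map (Int.castRingHom ℚ) (ψ i) = ψ' i) (F : MvPolynomial σ ℤ) :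
    map (Int.castRingHom ℚ) (aeval ψ F) = aeval ψ' (map (Int.castRingHom ℚ) F) := by
  induction F using MvPolynomial.induction_on with
  | C a => rw [map_C, aeval_C, aeval_C, algebraMap_eq, algebraMap_eq, map_C]
  | add p q hp hq => rw [map_add, map_add, map_add, map_add, hp, hq]
  | mul_X p i hp => rw [map_mul, map_mul, map_mul, map_mul, hp, map_X, aeval_X, aeval_X, h]

private theorem Mono_eval {σ τ : Type} (ψ : σ → MvPolynomial τ ℤ) (p : τ → ℤ) (F : MvPolynomial σ ℤ) :
    eval p (aeval ψ F) = eval (fun i => eval p (ψ i)) F := by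
  induction F using MvPolynomial.induction_on with
  | C a => rw [aeval_C, algebraMap_eq, eval_C, eval_C]
  | add p q hp hq => rw [map_add, map_add, map_add, hp, hq]
  | mul_X p i hp => rw [map_mul, map_mul, map_mul, hp, aeval_X, eval_X]

/-- One variable less. -/
private theorem Mono_step {n : ℕ} {a : ℝ} (ha : 0 ≤ a)
    (hc : ∀ (e : ℕ) (H : MvPolynomial (Fin (n + 1 + 1)) ℤ), H.IsHomogeneous e →
      Irreducible (map (Int.castRingHom ℚ) H) → GradE a H)
    (e : ℕ) (H : MvPolynomial (Fin (n + 1)) ℤ) (hH : H.IsHomogeneous e)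
    (hirr : Irreducible (map (Int.castRingHom ℚ) H)) : GradE a H := by
  obtain ⟨h, hh⟩ : ∃ h, h = map (Int.castRingHom ℚ) H := ⟨_, rfl⟩
  rw [← hh] at hirr
  by_cases hX : ∀ j, h ∣ X j
  · refine ⟨1, 0, ⟨0, isHomogeneous_one _ _⟩, ?_, fun p hp hp0 => ?_⟩
    · rw [map_one, ← hh]
      exact fun hd => hirr.not_isUnit (isUnit_of_dvd_one hd)
    · exfalso
      have h1 : p = 0 := by
        funext j
        obtain ⟨c, hc⟩ := hX j
        have h2 := congrArg (eval fun i => (p i : ℚ)) hc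
        rw [eval_X, map_mul, hh, Mono_cast, hp0, Int.cast_zero, zero_mul] at h2
        exact_mod_cast h2
      rw [h1, Finset.gcd_eq_zero_iff.2 (by simp)] at hp
      exact zero_ne_one hp
  push Not at hX
  obtain ⟨j, hj⟩ := hX
  have hmap : map (Int.castRingHom ℚ) (rename Fin.succ H) = rename Fin.succ h := by rw [hh, map_rename]
  obtain ⟨G, C₀, ⟨e', hG'⟩, hG, hC⟩ := hc e (rename Fin.succ H) (hH.rename_isHomogeneous) (by
    rw [hmap]
    exact Mono_irr hirr)
  rw [hmap] at hG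
  obtain ⟨c, hcG⟩ := Mono_spec hirr hj hG
  obtain ⟨ψ, hψ⟩ : ∃ ψ : Fin (n + 1 + 1) → MvPolynomial (Fin (n + 1)) ℤ, ψ = Fin.cons (C c * X j) X := ⟨_, rfl⟩
  refine ⟨aeval ψ G, |C₀| * ((|c| : ℤ) + 1 : ℝ) ^ a, ⟨e', ?_⟩, ?_, ?_⟩
  · have h1 : (aeval ψ G).IsHomogeneous (1 * e') := hG'.aeval ψ (fun i => by
      rw [hψ]
      refine Fin.cases ?_ (fun i => ?_) i
      · rw [Fin.cons_zero]
        have h2 := (isHomogeneous_C (Fin (n + 1)) c).mul (isHomogeneous_X ℤ j)
        rwa [zero_add] at h2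
      · rw [Fin.cons_succ]
        exact isHomogeneous_X ℤ i)
    rwa [one_mul] at h1
  · rw [← hh]
    rw [Mono_map ψ (Fin.cons (C (c : ℚ) * X j) X) (fun i => by
      rw [hψ]
      refine Fin.cases ?_ (fun i => ?_) i
      · rw [Fin.cons_zero, Fin.cons_zero, map_mul, map_C, map_X, eq_intCast]
      · rw [Fin.cons_succ, Fin.cons_succ, map_X])]
    exact hcG
  intro p hp hp0 hpG
  obtain ⟨q, hq⟩ : ∃ q : Fin (n + 1 + 1) → ℤ, q = Fin.cons (c * p j) p := ⟨_, rfl⟩
  have hq0 : q 0 = c * p j := by rw [hq, Fin.cons_zero]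
  have hqs : ∀ i, q (Fin.succ i) = p i := fun i => by rw [hq, Fin.cons_succ]
  have hgcd0 : ∀ {m : ℕ} (g : Fin m → ℤ), 0 ≤ Finset.univ.gcd g := by
    intro m g
    have h1 := Int.abs_eq_normalize (Finset.univ.gcd g)
    rw [Finset.normalize_gcd] at h1
    rw [← h1]
    exact abs_nonneg _
  have hq1 : Finset.univ.gcd q = 1 := by
    have h1 : Finset.univ.gcd q ∣ 1 := by
      rw [← hp]
      refine Finset.dvd_gcd fun i _ => ?_
      rw [← hqs]
      exact Finset.gcd_dvd (Finset.mem_univ _)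
    exact Int.eq_one_of_dvd_one (hgcd0 q) h1
  have hqe : ∀ f : MvPolynomial (Fin (n + 1)) ℤ, eval q (rename Fin.succ f) = eval p f := by
    intro f
    rw [eval_rename]
    congr 2
    funext i
    exact hqs i
  have hqG : eval q G ≠ 0 := by
    have h1 : (fun i => eval p (ψ i)) = q := by
      funext i
      rw [hψ]
      refine Fin.cases ?_ (fun i => ?_) i
      · rw [Fin.cons_zero, map_mul, eval_C, eval_X, hq0]
      · rw [Fin.cons_succ, eval_X, hqs]
    rw [← h1, ← Mono_eval]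
    exact hpG
  have h1 := hC q hq1 (by rw [hqe, hp0]) hqG
  obtain ⟨g, hg⟩ : ∃ g : Fin (n + 1) → ℤ, g = fun j => eval p (pderiv j H) := ⟨_, rfl⟩
  rw [← hg]
  have hgs : ∀ i, eval q (pderiv (Fin.succ i) (rename Fin.succ H)) = g i := by
    intro i
    rw [pderiv_rename (Fin.succ_injective _), hqe, hg]
  by_cases hg0 : g = 0
  · rw [hg0, norm_zero, Finset.gcd_eq_zero_iff.2 (by simp)]
    simp
  have hgcd1 : 0 < Finset.univ.gcd g := by
    refine lt_of_le_of_ne (hgcd0 g) fun h1 => hg0 ?_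
    funext j
    exact Finset.gcd_eq_zero_iff.1 h1.symm j (Finset.mem_univ j)
  have hle : ((Finset.univ.gcd fun j => eval q (pderiv j (rename Fin.succ H)) : ℤ) : ℝ) ≤
      (Finset.univ.gcd g : ℤ) := by
    have h2 : (Finset.univ.gcd fun j => eval q (pderiv j (rename Fin.succ H)) : ℤ) ∣ Finset.univ.gcd g := by
      refine Finset.dvd_gcd fun i _ => ?_
      have h3 := Finset.gcd_dvd (s := Finset.univ) (f := fun j => eval q (pderiv j (rename Fin.succ H)))
        (Finset.mem_univ (Fin.succ i))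
      rwa [hgs] at h3
    exact_mod_cast Int.le_of_dvd hgcd1 h2
  have hlow : ‖g‖ ≤ ‖fun j => eval q (pderiv j (rename Fin.succ H))‖ := by
    rw [pi_norm_le_iff_of_nonneg (norm_nonneg _)]
    intro i
    have h2 := norm_le_pi_norm (fun j => eval q (pderiv j (rename Fin.succ H))) (Fin.succ i)
    rwa [hgs] at h2
  have hqp : ‖q‖ ≤ ((|c| : ℤ) + 1 : ℝ) * ‖p‖ := by
    have hc0 : (0 : ℝ) ≤ ((|c| : ℤ) : ℝ) := by exact_mod_cast abs_nonneg c
    rw [pi_norm_le_iff_of_nonneg (by positivity)]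
    intro i
    refine Fin.cases ?_ (fun i => ?_) i
    · rw [hq0, Int.norm_eq_abs, Int.cast_mul, abs_mul]
      have h2 := norm_le_pi_norm p j
      rw [Int.norm_eq_abs] at h2
      have h3 : |(c : ℝ)| = ((|c| : ℤ) : ℝ) := by rw [Int.cast_abs]
      rw [h3]
      nlinarith [norm_nonneg p]
    · rw [hqs]
      have h2 := norm_le_pi_norm p i
      nlinarith [norm_nonneg p]
  have hpow : ‖q‖ ^ a ≤ ((|c| : ℤ) + 1 : ℝ) ^ a * ‖p‖ ^ a := by
    have hc0 : (0 : ℝ) ≤ ((|c| : ℤ) : ℝ) := by exact_mod_cast abs_nonneg c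
    rw [← Real.mul_rpow (by positivity) (norm_nonneg _)]
    exact Real.rpow_le_rpow (norm_nonneg _) hqp ha
  have hgn : (0 : ℝ) ≤ ((Finset.univ.gcd fun j => eval q (pderiv j (rename Fin.succ H)) : ℤ) : ℝ) := by
    exact_mod_cast hgcd0 _
  calc ‖g‖ ≤ ‖fun j => eval q (pderiv j (rename Fin.succ H))‖ := hlow
    _ ≤ C₀ * ‖q‖ ^ a * ((Finset.univ.gcd fun j => eval q (pderiv j (rename Fin.succ H)) : ℤ) : ℝ) := h1
    _ ≤ |C₀| * ‖q‖ ^ a * ((Finset.univ.gcd fun j => eval q (pderiv j (rename Fin.succ H)) : ℤ) : ℝ) := by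
      refine mul_le_mul_of_nonneg_right (mul_le_mul_of_nonneg_right (le_abs_self C₀) ?_) hgn
      positivity
    _ ≤ |C₀| * (((|c| : ℤ) + 1 : ℝ) ^ a * ‖p‖ ^ a) * (Finset.univ.gcd g : ℤ) := by
      refine mul_le_mul (mul_le_mul_of_nonneg_left hpow (abs_nonneg _)) hle hgn ?_
      have hc0 : (0 : ℝ) ≤ ((|c| : ℤ) : ℝ) := by exact_mod_cast abs_nonneg c
      positivity
    _ = |C₀| * ((|c| : ℤ) + 1 : ℝ) ^ a * ‖p‖ ^ a * (Finset.univ.gcd g : ℤ) := by ring

/-- The inequality for the irreducible forms in `N + 1` variables with the exponent `a` implies the one for the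
irreducible forms in fewer variables with the same exponent. -/
theorem grad_mono {n N : ℕ} (hn : n ≤ N) {a : ℝ} (ha : 0 ≤ a)
    (hc : ∀ (e : ℕ) (H : MvPolynomial (Fin (N + 1)) ℤ), H.IsHomogeneous e →
      Irreducible (map (Int.castRingHom ℚ) H) → GradE a H) :
    ∀ (e : ℕ) (H : MvPolynomial (Fin (n + 1)) ℤ), H.IsHomogeneous e →
      Irreducible (map (Int.castRingHom ℚ) H) → GradE a H := by
  induction N, hn using Nat.le_induction with
  | base => exact hc
  | succ N hN ih => exact ih (Mono_step ha hc)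

end Pool.Agent.Lib.MP_17a322_nt.GE
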