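import Mathlib

/-!
Successive choices of the coordinates of a point at which a polynomial does not vanish, and digits.
-/

namespace Pool.Agent.Lib.MP_17a322_nt.GE

open MvPolynomial

/-- A polynomial which does not vanish at a point does not vanish after a suitable change of one coordinate. -/
theorem exists_update {β : Type} [DecidableEq β] (H : MvPolynomial β ℚ) (D : ℕ) (hD : H.totalDegree ≤ D)
    (p : β → ℚ) (hp : eval p H ≠ 0) (b : β) (S : Finset ℚ) (hS : D < S.card) :
    ∃ a ∈ S, eval (Function.update p b a) H ≠ 0 := by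
  by_contra hc
  push Not at hc
  set q : Polynomial ℚ := aeval (fun b' => if b' = b then Polynomial.X else Polynomial.C (p b')) H with hq
  have hdeg : q.natDegree ≤ D := by
    have h1 := MvPolynomial.aeval_natDegree_le H hD (fun b' => if b' = b then Polynomial.X else Polynomial.C (p b'))
      (n := 1) (fun b' => by
        by_cases h : b' = b
        · rw [if_pos h]
          exact Polynomial.natDegree_X_le
        · rw [if_neg h, Polynomial.natDegree_C]
          exact Nat.zero_le 1)
    rw [mul_one] at h1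
    exact h1
  have hev : ∀ a : ℚ, q.eval a = eval (Function.update p b a) H := by
    intro a
    rw [hq]
    have h1 : (Polynomial.aeval a) (aeval (fun b' => if b' = b then Polynomial.X else Polynomial.C (p b')) H) =
        aeval (fun b' => Polynomial.aeval a ((if b' = b then Polynomial.X else Polynomial.C (p b')) : Polynomial ℚ)) H := by
      rw [← AlgHom.comp_apply, comp_aeval]
    have h2 : (fun b' => Polynomial.aeval a ((if b' = b then Polynomial.X else Polynomial.C (p b')) : Polynomial ℚ)) =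
        Function.update p b a := by
      funext b'
      by_cases h : b' = b
      · subst h
        simp
      · rw [if_neg h, Function.update_of_ne h]
        simp
    rw [h2, Polynomial.coe_aeval_eq_eval] at h1
    exact h1
  have hq0 : q ≠ 0 := by
    intro h0
    apply hp
    have h1 := hev (p b)
    rw [h0, Polynomial.eval_zero, Function.update_eq_self] at h1
    exact h1.symm
  have h2 : S ⊆ q.roots.toFinset := by
    intro a ha
    rw [Multiset.mem_toFinset, Polynomial.mem_roots hq0, Polynomial.IsRoot.def, hev]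
    exact hc a ha
  have h3 := (Finset.card_le_card h2).trans ((Multiset.toFinset_card_le _).trans (Polynomial.card_roots' q))
  omega

/-- Successive choices of the coordinates of a point at which a polynomial does not vanish. -/
theorem seq {β : Type} [Fintype β] [DecidableEq β] (H : MvPolynomial β ℚ) (D : ℕ) (hD : H.totalDegree ≤ D)
    (B : β → Prop) (ρ : β → ℕ) (S : β → (β → ℚ) → Finset ℚ) (hS : ∀ b, ¬ B b → ∀ z, D < (S b z).card)
    (hdep : ∀ b, ¬ B b → ∀ z z' : β → ℚ, (∀ b', B b' ∨ ρ b' < ρ b → z b' = z' b') → S b z = S b z')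
    (p₀ : β → ℚ) (h₀ : eval p₀ H ≠ 0) :
    ∃ p : β → ℚ, (∀ b, B b → p b = p₀ b) ∧ (∀ b, ¬ B b → p b ∈ S b p) ∧ eval p H ≠ 0 := by
  classical
  set 𝓕 : Finset (Finset β) := Finset.univ.filter fun F => (∀ b ∈ F, ¬ B b) ∧
    (∀ b ∈ F, ∀ b', ¬ B b' → ρ b' < ρ b → b' ∈ F) ∧
      ∃ p : β → ℚ, (∀ b, B b → p b = p₀ b) ∧ (∀ b ∈ F, p b ∈ S b p) ∧ eval p H ≠ 0 with h𝓕
  have hne : 𝓕.Nonempty := ⟨∅, by
    rw [h𝓕, Finset.mem_filter]
    refine ⟨Finset.mem_univ _, by simp, by simp, p₀, fun _ _ => rfl, by simp, h₀⟩⟩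
  obtain ⟨F, hF, hmax⟩ := 𝓕.exists_max_image (fun F => F.card) hne
  rw [h𝓕, Finset.mem_filter] at hF
  obtain ⟨-, hFB, hFc, p, hp1, hp2, hp3⟩ := hF
  by_cases hall : ∀ b, ¬ B b → b ∈ F
  · exact ⟨p, hp1, fun b hb => hp2 b (hall b hb), hp3⟩
  exfalso
  push Not at hall
  obtain ⟨b₁, hb₁, hb₁F⟩ := hall
  obtain ⟨b, hb, hbmin⟩ := (Finset.univ.filter fun b => ¬ B b ∧ b ∉ F).exists_min_image ρ ⟨b₁, by
    rw [Finset.mem_filter]
    exact ⟨Finset.mem_univ _, hb₁, hb₁F⟩⟩
  rw [Finset.mem_filter] at hb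
  obtain ⟨-, hbB, hbF⟩ := hb
  obtain ⟨a, haS, ha⟩ := exists_update H D hD p hp3 b (S b p) (hS b hbB p)
  have hmem : insert b F ∈ 𝓕 := by
    rw [h𝓕, Finset.mem_filter]
    refine ⟨Finset.mem_univ _, ?_, ?_, Function.update p b a, ?_, ?_, ha⟩
    · intro b' hb'
      rcases Finset.mem_insert.1 hb' with rfl | hb'
      · exact hbB
      · exact hFB b' hb'
    · intro b' hb' b'' hb''B hlt
      rw [Finset.mem_insert]
      rcases Finset.mem_insert.1 hb' with rfl | hb'
      · by_contra hc
        rw [not_or] at hc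
        have := hbmin b'' (Finset.mem_filter.2 ⟨Finset.mem_univ _, hb''B, hc.2⟩)
        omega
      · exact Or.inr (hFc b' hb' b'' hb''B hlt)
    · intro b' hb'
      rw [Function.update_of_ne (by rintro rfl; exact hbB hb')]
      exact hp1 b' hb'
    · intro b' hb'
      rcases Finset.mem_insert.1 hb' with rfl | hb2
      · rw [Function.update_self, hdep b' hbB (Function.update p b' a) p (fun b'' hb'' => ?_)]
        · exact haS
        · apply Function.update_of_ne
          rintro rfl
          rcases hb'' with hb'' | hb''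
          · exact hbB hb''
          · exact lt_irrefl _ hb''
      · have hne' : b' ≠ b := fun h => hbF (h ▸ hb2)
        rw [Function.update_of_ne hne', hdep b' (hFB b' hb2) (Function.update p b a) p (fun b'' hb'' => ?_)]
        · exact hp2 b' hb2
        · apply Function.update_of_ne
          intro h
          rw [h] at hb''
          rcases hb'' with hb'' | hb''
          · exact hbB hb''
          · exact hbF (hFc b' hb2 b hbB hb'')
  have h1 := hmax _ hmem
  rw [Finset.card_insert_of_notMem hbF] at h1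
  omega

/-- The rest after the digits above the digit `j`. -/
noncomputable def rr {k : ℕ} (x c u : ℚ) (w : Fin (k + 1) → ℚ) (j : Fin (k + 1)) : ℚ :=
  x - c - ∑ j' ∈ Finset.univ.filter (j < ·), w j' * u ^ (j' : ℕ)

theorem rr_step {k D : ℕ} (x c u : ℚ) (hu : 1 ≤ u) (w : Fin (k + 1) → ℚ) (j : Fin (k + 1)) (s : ℕ) (hs : s ≤ D)
    (hw : w j = ((⌊rr x c u w j / u ^ (j : ℕ)⌋ + s : ℤ) : ℚ)) :
    |rr x c u w j - w j * u ^ (j : ℕ)| ≤ (D + 1) * u ^ (j : ℕ) ∧
      |w j| ≤ |rr x c u w j| / u ^ (j : ℕ) + (D + 1) := by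
  have hu0 : 0 < u ^ (j : ℕ) := by positivity
  set R : ℚ := rr x c u w j with hR
  set U : ℚ := u ^ (j : ℕ) with hU
  have h1 := Int.floor_le (R / U)
  have h2 := Int.lt_floor_add_one (R / U)
  have h3 : (⌊R / U⌋ : ℚ) * U ≤ R := by
    have := mul_le_mul_of_nonneg_right h1 hu0.le
    rwa [div_mul_cancel₀ _ hu0.ne'] at this
  have h4 : R < ((⌊R / U⌋ : ℚ) + 1) * U := by
    have := mul_lt_mul_of_pos_right h2 hu0
    rwa [div_mul_cancel₀ _ hu0.ne'] at this
  have hs0 : (0 : ℚ) ≤ s := Nat.cast_nonneg _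
  have hsD : (s : ℚ) ≤ D := by exact_mod_cast hs
  have hsU : (s : ℚ) * U ≤ D * U := mul_le_mul_of_nonneg_right hsD hu0.le
  have hsU0 : 0 ≤ (s : ℚ) * U := by positivity
  rw [hw]
  push_cast
  constructor
  · rw [abs_le]
    constructor
    · nlinarith
    · nlinarith
  · have h5 : |(⌊R / U⌋ : ℚ)| ≤ |R / U| + 1 := by
      rw [abs_le]
      constructor
      · have := neg_abs_le (R / U)
        linarith
      · have := le_abs_self (R / U)
        linarith
    rw [abs_div, abs_of_pos hu0] at h5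
    refine (abs_add_le _ _).trans ?_
    rw [abs_of_nonneg hs0]
    linarith

theorem rr_pred {k : ℕ} (x c u : ℚ) (w : Fin (k + 1) → ℚ) (j j₁ : Fin (k + 1)) (h : (j₁ : ℕ) = j + 1) :
    rr x c u w j = rr x c u w j₁ - w j₁ * u ^ (j₁ : ℕ) := by
  have h1 : Finset.univ.filter (j < ·) = insert j₁ (Finset.univ.filter (j₁ < ·)) := by
    ext a
    simp only [Finset.mem_filter, Finset.mem_univ, true_and, Finset.mem_insert]
    rw [Fin.lt_def, Fin.lt_def, Fin.ext_iff]
    omega
  rw [rr, rr, h1, Finset.sum_insert (by simp)]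
  ring

/-- The bounds for the digits. -/
theorem digit_bound {k D : ℕ} (hk : 1 ≤ k) (x c u : ℚ) (hu : 1 ≤ u) (w : Fin (k + 1) → ℚ)
    (hw : ∀ j, j ≠ 0 → ∃ s : ℕ, s ≤ D ∧ w j = ((⌊rr x c u w j / u ^ (j : ℕ)⌋ + s : ℤ) : ℚ)) :
    |rr x c u w 0| ≤ (D + 1) * u ∧ (∀ j, j ≠ 0 → j ≠ Fin.last k → |w j| ≤ 2 * (D + 1) * u) ∧
      |w (Fin.last k)| ≤ |x - c| / u ^ k + (D + 1) := by
  have hstep : ∀ j : Fin (k + 1), j ≠ Fin.last k → |rr x c u w j| ≤ (D + 1) * u ^ ((j : ℕ) + 1) := by
    intro j hj
    have hjk : (j : ℕ) < k := by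
      have h1 := j.is_lt
      have h2 : (j : ℕ) ≠ k := fun h => hj (Fin.ext h)
      omega
    obtain ⟨s, hs, h1⟩ := hw ⟨j + 1, by omega⟩ (by
      intro h
      have := congrArg Fin.val h
      simp at this)
    rw [rr_pred x c u w j ⟨j + 1, by omega⟩ rfl]
    exact (rr_step x c u hu w _ s hs h1).1
  have h0 : (0 : Fin (k + 1)) ≠ Fin.last k := by
    intro h
    have := congrArg Fin.val h
    simp at this
    omega
  refine ⟨?_, ?_, ?_⟩
  · have h1 := hstep 0 h0
    simpa using h1
  · intro j hj hj'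
    obtain ⟨s, hs, h1⟩ := hw j hj
    refine (rr_step x c u hu w j s hs h1).2.trans ?_
    have hu0 : 0 < u ^ (j : ℕ) := by positivity
    have h2 := hstep j hj'
    have h3 : |rr x c u w j| / u ^ (j : ℕ) ≤ (D + 1) * u := by
      rw [div_le_iff₀ hu0]
      rw [pow_succ] at h2
      linarith
    have h4 : (0 : ℚ) ≤ D := Nat.cast_nonneg _
    nlinarith
  · obtain ⟨s, hs, h1⟩ := hw (Fin.last k) h0.symm
    have h2 := (rr_step x c u hu w _ s hs h1).2
    have h3 : rr x c u w (Fin.last k) = x - c := by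
      have h4 : Finset.univ.filter (Fin.last k < ·) = ∅ := by
        ext a
        simp [Fin.le_last a]
      rw [rr, h4, Finset.sum_empty, sub_zero]
    rw [h3, Fin.val_last] at h2
    exact h2

end Pool.Agent.Lib.MP_17a322_nt.GE
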