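import Pool.Agent.Lib.MP_17a322_nt.GE.A2
import Pool.Agent.Lib.MP_17a322_nt.GE.B3
import Pool.Agent.Lib.MP_17a322_nt.GE.Mono

/-!
The inequality for the gradients with the exponents `(A + o(1)) n` is equivalent to the one with the exponents
`A (n + 1) - 1 + ε`.
-/

namespace Pool.Agent.Lib.MP_17a322_nt.GE

open MvPolynomial

private theorem Weak_scale {σ : Type} {F : MvPolynomial σ ℤ} {d : ℕ} (hF : F.IsHomogeneous d) (m : ℤ) (p : σ → ℤ) :
    eval (fun i => m * p i) F = m ^ d * eval p F := by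
  rw [eval_eq, eval_eq, Finset.mul_sum]
  refine Finset.sum_congr rfl fun s hs => ?_
  have h1 : ∏ i ∈ s.support, (m * p i) ^ s i = m ^ d * ∏ i ∈ s.support, p i ^ s i := by
    simp only [mul_pow, Finset.prod_mul_distrib]
    rw [Finset.prod_pow_eq_pow_sum]
    have h2 := hF (mem_support_iff.1 hs)
    rw [Finsupp.weight_apply] at h2
    simp only [Pi.one_apply, smul_eq_mul, mul_one] at h2
    rw [← h2]
    rfl
  rw [h1]
  ring

/-- If the inequality holds with the exponents `(A + δ) n` for arbitrarily large `n`, for every `δ > 0`, then it holds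
for all `n` with the exponents `A (n + 1) - 1 + ε`. -/
theorem all_of_weak {A : ℝ} (hA1 : 1 ≤ A) (h : GradW A) (n e : ℕ) (H : MvPolynomial (Fin (n + 1)) ℤ) (ε : ℝ)
    (hH : H.IsHomogeneous e) (hirr : Irreducible (map (Int.castRingHom ℚ) H)) (hε : 0 < ε) :
    GradE (A * (n + 1) - 1 + ε) H := by
  -- the choice of `δ` and `k`
  obtain ⟨δ, hδ0, hδ1, hδε⟩ : ∃ δ : ℝ, 0 < δ ∧ δ ≤ 1 ∧ δ * (n + 1) ≤ ε / 2 := by
    refine ⟨min 1 (ε / (2 * (n + 1))), by positivity, min_le_left _ _, ?_⟩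
    have h1 := min_le_right 1 (ε / (2 * ((n : ℝ) + 1)))
    have h2 := mul_le_mul_of_nonneg_right h1 (by positivity : (0 : ℝ) ≤ (n : ℝ) + 1)
    refine h2.trans (le_of_eq ?_)
    field_simp
  obtain ⟨k₀, hk₀1, hk₀2⟩ : ∃ k : ℕ, 0 < k ∧ (A + 1) * (2 * (n : ℝ) + 3) ≤ k * (ε / 2) := by
    obtain ⟨j, hj⟩ := exists_nat_ge ((A + 1) * (2 * (n : ℝ) + 3) / (ε / 2))
    refine ⟨max 1 j, by omega, ?_⟩
    rw [div_le_iff₀ (by positivity)] at hj
    refine hj.trans (mul_le_mul_of_nonneg_right ?_ (by positivity))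
    exact_mod_cast le_max_right _ _
  obtain ⟨N₀, hN₀, hc⟩ := h δ hδ0 (1 + (n + 1) * (k₀ + 1))
  obtain ⟨k, hk1, hk3, hkN₀, hN₀k⟩ : ∃ k : ℕ, 0 < k ∧ (A + 1) * (2 * (n : ℝ) + 3) ≤ k * (ε / 2) ∧
      1 + (n + 1) * (k + 1) ≤ N₀ ∧ N₀ ≤ 1 + (n + 1) * (k + 2) := by
    obtain ⟨t, ht⟩ : ∃ t, t = (N₀ - 1) / (n + 1) := ⟨_, rfl⟩
    have h1 : k₀ + 1 ≤ t := by
      rw [ht, Nat.le_div_iff_mul_le (by omega), mul_comm]
      omega
    have h2 : (n + 1) * t ≤ N₀ - 1 := by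
      rw [ht]
      exact Nat.mul_div_le _ _
    have h3 : N₀ - 1 < (n + 1) * (t + 1) := by
      rw [ht]
      exact Nat.lt_mul_div_succ _ (by omega)
    have h4 : t - 1 + 1 = t := by omega
    have h5 : t - 1 + 2 = t + 1 := by omega
    refine ⟨t - 1, by omega, hk₀2.trans (mul_le_mul_of_nonneg_right ?_ (by positivity)), ?_, ?_⟩
    · have h6 : k₀ ≤ t - 1 := by omega
      exact_mod_cast h6
    · rw [h4]
      have : 1 ≤ N₀ := by omega
      omega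
    · rw [h5]
      omega
  obtain ⟨N, hN⟩ : ∃ N : ℕ, N = Fintype.card (Vr n k) := ⟨_, rfl⟩
  have hN1 : N = 1 + (n + 1) * (k + 1) := by
    rw [hN, Fintype.card_option, Fintype.card_prod, Fintype.card_fin, Fintype.card_fin]
    ring
  have hkN : k ≤ N₀ := by
    refine le_trans ?_ hkN₀
    nlinarith
  obtain ⟨κ, hκ⟩ : ∃ κ : ℝ, κ = (A + δ) * N₀ := ⟨_, rfl⟩
  have hκk : (k : ℝ) ≤ κ := by
    have h1 : (k : ℝ) ≤ N₀ := by exact_mod_cast hkN
    rw [hκ]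
    have h2 : (0 : ℝ) ≤ N₀ := Nat.cast_nonneg N₀
    have h3 : 1 * (N₀ : ℝ) ≤ (A + δ) * N₀ := mul_le_mul_of_nonneg_right (by linarith) h2
    linarith
  have hκ0 : 0 ≤ κ := (Nat.cast_nonneg k).trans hκk
  have hexp : κ - k ≤ (A * (n + 1) - 1 + ε) * k := by
    have h0 : (N₀ : ℝ) ≤ 1 + (n + 1) * (k + 2) := by exact_mod_cast hN₀k
    have h1 : δ * (n + 1) * k ≤ ε / 2 * k := mul_le_mul_of_nonneg_right hδε (Nat.cast_nonneg k)
    have h2 : (A + δ) * (2 * (n : ℝ) + 3) ≤ (A + 1) * (2 * (n : ℝ) + 3) :=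
      mul_le_mul_of_nonneg_right (by linarith) (by positivity)
    have h3 : κ ≤ (A + δ) * (1 + (n + 1) * (k + 2)) := by
      rw [hκ]
      exact mul_le_mul_of_nonneg_left h0 (by linarith)
    nlinarith
  have hE : ∀ (e' : ℕ) (H' : MvPolynomial (Fin (N + 1)) ℤ), H'.IsHomogeneous e' →
      Irreducible (map (Int.castRingHom ℚ) H') → GradE κ H' := by
    refine grad_mono (N := N₀) (by rw [hN1]; exact hkN₀) hκ0 ?_
    rw [hκ]
    exact hc
  have hirr' : Irreducible (map (Int.castRingHom ℚ) (ex k H)) := by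
    rw [map_ex]
    exact ex_irreducible k hirr
  obtain ⟨G', C', hG', hA⟩ := aff_of_grad N κ hE hN.symm (ex k H) hirr'
  obtain ⟨G, B, hG1, hG2, hG⟩ := exists_point hk1 H hH hirr G' hG'
  refine ⟨G, |C'| * ((B : ℝ) + 1) ^ κ * 2 ^ (κ - k), hG1, hG2, ?_⟩
  intro p hp hp0 hpG
  have hpne : p ≠ 0 := by
    rintro rfl
    rw [Finset.gcd_eq_zero_iff.2 (by simp)] at hp
    exact zero_ne_one hp
  have hp1 : 1 ≤ ‖p‖ := by
    obtain ⟨i, hi⟩ := Function.ne_iff.1 hpne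
    have h1 := norm_le_pi_norm p i
    have h2 : (1 : ℝ) ≤ ‖p i‖ := by
      rw [Int.norm_eq_abs]
      exact_mod_cast Int.one_le_abs hi
    exact h2.trans h1
  obtain ⟨r, hr⟩ : ∃ r : ℝ, r = ‖p‖ ^ ((k : ℝ)⁻¹) := ⟨_, rfl⟩
  have hk0 : (k : ℝ) ≠ 0 := by exact_mod_cast hk1.ne'
  have hr1 : 1 ≤ r := by
    rw [hr]
    exact Real.one_le_rpow hp1 (by positivity)
  have hrk : r ^ k = ‖p‖ := by
    rw [hr, ← Real.rpow_natCast, ← Real.rpow_mul (by positivity), inv_mul_cancel₀ hk0, Real.rpow_one]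
  obtain ⟨u₀, hu₀⟩ : ∃ u₀ : ℤ, u₀ = ⌈r⌉ := ⟨_, rfl⟩
  have hu1 : r ≤ (u₀ : ℝ) := by
    rw [hu₀]
    exact Int.le_ceil r
  have hu2 : (u₀ : ℝ) ≤ 2 * r := by
    rw [hu₀]
    have := Int.ceil_lt_add_one r
    linarith
  have hu3 : 1 ≤ u₀ := by
    have : (1 : ℝ) ≤ u₀ := hr1.trans hu1
    exact_mod_cast this
  have hu3' : (1 : ℝ) ≤ u₀ := by exact_mod_cast hu3
  obtain ⟨m, q, hm0, -, hq1, hq2, hq3, hqG⟩ := hG p u₀ hpG hu3 (fun i => by
    have h1 := norm_le_pi_norm p i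
    rw [Int.norm_eq_abs] at h1
    have h2 : ((|p i| : ℤ) : ℝ) ≤ ((u₀ ^ k : ℤ) : ℝ) := by
      push_cast
      refine h1.trans ?_
      rw [← hrk]
      exact pow_le_pow_left₀ (by linarith) hu1 k
    exact_mod_cast h2)
  have hx0 : eval q (ex k H) = 0 := by
    rw [eval_ex k H q (fun i => m * p i) hq3, Weak_scale hH, hp0, mul_zero]
  have hAq := hA q hx0 hqG
  -- the gradient at the new point
  obtain ⟨g, hg⟩ : ∃ g : Fin (n + 1) → ℤ, g = fun j => eval p (pderiv j H) := ⟨_, rfl⟩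
  have hgm : (fun j => eval (fun i => m * p i) (pderiv j H)) = fun j => m ^ (e - 1) * g j := by
    funext j
    rw [hg, Weak_scale hH.pderiv]
  rw [← hg]
  by_cases hg0 : g = 0
  · rw [hg0, norm_zero, Finset.gcd_eq_zero_iff.2 (by simp)]
    simp
  obtain ⟨M, hM⟩ : ∃ M : ℤ, M = m ^ (e - 1) := ⟨_, rfl⟩
  have hM0 : M ≠ 0 := by
    rw [hM]
    exact pow_ne_zero _ hm0
  have hM0' : (0 : ℝ) < |(M : ℝ)| := by
    rw [abs_pos]
    exact_mod_cast hM0
  have hgcd0 : 0 ≤ Finset.univ.gcd g := by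
    have h1 := Int.abs_eq_normalize (Finset.univ.gcd g)
    rw [Finset.normalize_gcd] at h1
    rw [← h1]
    exact abs_nonneg _
  have hgcd1 : 0 < Finset.univ.gcd g := by
    refine lt_of_le_of_ne hgcd0 fun h1 => hg0 ?_
    funext j
    exact Finset.gcd_eq_zero_iff.1 h1.symm j (Finset.mem_univ j)
  have hval : ∀ (i : Fin (n + 1)) (j : Fin (k + 1)),
      eval q (pderiv (some (i, j)) (ex k H)) = M * g i * q none ^ (j : ℕ) := by
    intro i j
    rw [eval_pderiv_ex k H q (fun i => m * p i) hq3]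
    have h1 : eval (fun i => m * p i) (pderiv i H) = m ^ (e - 1) * g i := congrFun hgm i
    rw [h1, hM]
  have hdvd : (Finset.univ.gcd fun o => eval q (pderiv o (ex k H)) : ℤ) ∣ |M| * Finset.univ.gcd g := by
    have h1 : (Finset.univ.gcd fun o => eval q (pderiv o (ex k H)) : ℤ) ∣ Finset.univ.gcd fun j => M * g j := by
      refine Finset.dvd_gcd fun j _ => ?_
      have h2 := Finset.gcd_dvd (s := Finset.univ) (f := fun o => eval q (pderiv o (ex k H)))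
        (Finset.mem_univ (some (j, (0 : Fin (k + 1)))))
      rw [hval, Fin.val_zero, pow_zero, mul_one] at h2
      exact h2
    rw [Finset.gcd_mul_left, ← Int.abs_eq_normalize] at h1
    exact h1
  have hle : ((Finset.univ.gcd fun o => eval q (pderiv o (ex k H)) : ℤ) : ℝ) ≤
      |(M : ℝ)| * (Finset.univ.gcd g : ℤ) := by
    have h1 := Int.le_of_dvd (mul_pos (abs_pos.2 hM0) hgcd1) hdvd
    have h2 : ((Finset.univ.gcd fun o => eval q (pderiv o (ex k H)) : ℤ) : ℝ) ≤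
        ((|M| * Finset.univ.gcd g : ℤ) : ℝ) := by exact_mod_cast h1
    rw [Int.cast_mul, Int.cast_abs] at h2
    exact h2
  have hlow : |(M : ℝ)| * ‖g‖ * (u₀ : ℝ) ^ k ≤ ‖fun o => eval q (pderiv o (ex k H))‖ := by
    obtain ⟨R, hR⟩ : ∃ R : ℝ, R = ‖fun o => eval q (pderiv o (ex k H))‖ := ⟨_, rfl⟩
    rw [← hR]
    have hR0 : 0 ≤ R := by rw [hR]; exact norm_nonneg _
    have hpos : 0 < |(M : ℝ)| * (u₀ : ℝ) ^ k := by positivity
    have h1 : ‖g‖ ≤ R / (|(M : ℝ)| * (u₀ : ℝ) ^ k) := by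
      rw [pi_norm_le_iff_of_nonneg (by positivity)]
      intro i
      rw [le_div_iff₀ hpos]
      have h2 := norm_le_pi_norm (fun o => eval q (pderiv o (ex k H))) (some (i, Fin.last k))
      rw [hval, ← hR, Fin.val_last, Int.norm_eq_abs, Int.cast_mul, Int.cast_mul, Int.cast_pow, abs_mul, abs_mul,
        abs_pow] at h2
      refine le_trans ?_ h2
      rw [Int.norm_eq_abs]
      have h3 : (u₀ : ℝ) ≤ |(q none : ℝ)| := by
        have h4 : (u₀ : ℝ) ≤ q none := by exact_mod_cast hq1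
        exact h4.trans (le_abs_self _)
      have h5 : (u₀ : ℝ) ^ k ≤ |(q none : ℝ)| ^ k := pow_le_pow_left₀ (by linarith) h3 k
      calc |(g i : ℝ)| * (|(M : ℝ)| * (u₀ : ℝ) ^ k) = |(M : ℝ)| * |(g i : ℝ)| * (u₀ : ℝ) ^ k := by ring
        _ ≤ _ := mul_le_mul_of_nonneg_left h5 (by positivity)
    rw [le_div_iff₀ hpos] at h1
    linarith
  have hqn : max 1 ‖q‖ ≤ ((B : ℝ) + 1) * u₀ := by
    refine max_le ?_ ?_
    · have hB0 : (0 : ℝ) ≤ B := Nat.cast_nonneg B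
      nlinarith
    · rw [pi_norm_le_iff_of_nonneg (by positivity)]
      intro o
      rw [Int.norm_eq_abs]
      have h1 : ((|q o| : ℤ) : ℝ) ≤ ((B * u₀ : ℤ) : ℝ) := by exact_mod_cast hq2 o
      push_cast at h1
      linarith
  have hpow : (max 1 ‖q‖) ^ κ ≤ ((B : ℝ) + 1) ^ κ * (u₀ : ℝ) ^ κ := by
    rw [← Real.mul_rpow (by positivity) (by positivity)]
    exact Real.rpow_le_rpow (by positivity) hqn hκ0
  have hup : ‖fun o => eval q (pderiv o (ex k H))‖ ≤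
      |C'| * (((B : ℝ) + 1) ^ κ * (u₀ : ℝ) ^ κ) * (|(M : ℝ)| * (Finset.univ.gcd g : ℤ)) := by
    have hgn : (0 : ℝ) ≤ ((Finset.univ.gcd fun o => eval q (pderiv o (ex k H)) : ℤ) : ℝ) := by
      have h1 := Int.abs_eq_normalize (Finset.univ.gcd fun o => eval q (pderiv o (ex k H)))
      rw [Finset.normalize_gcd] at h1
      rw [← h1]
      exact_mod_cast abs_nonneg _
    calc ‖fun o => eval q (pderiv o (ex k H))‖ ≤ C' * (max 1 ‖q‖) ^ κ *
          ((Finset.univ.gcd fun o => eval q (pderiv o (ex k H)) : ℤ) : ℝ) := hAq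
      _ ≤ |C'| * (max 1 ‖q‖) ^ κ * ((Finset.univ.gcd fun o => eval q (pderiv o (ex k H)) : ℤ) : ℝ) := by
        refine mul_le_mul_of_nonneg_right (mul_le_mul_of_nonneg_right (le_abs_self C') ?_) hgn
        positivity
      _ ≤ |C'| * (((B : ℝ) + 1) ^ κ * (u₀ : ℝ) ^ κ) * (|(M : ℝ)| * (Finset.univ.gcd g : ℤ)) := by
        refine mul_le_mul (mul_le_mul_of_nonneg_left hpow (abs_nonneg _)) hle hgn ?_
        positivity
  have h1 := hlow.trans hup
  have h2 : (u₀ : ℝ) ^ κ = (u₀ : ℝ) ^ (κ - k) * (u₀ : ℝ) ^ k := by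
    rw [← Real.rpow_natCast, ← Real.rpow_add (by linarith)]
    congr 1
    ring
  rw [h2] at h1
  have hpos : 0 < |(M : ℝ)| * (u₀ : ℝ) ^ k := by positivity
  have h3 : ‖g‖ ≤ |C'| * ((B : ℝ) + 1) ^ κ * (u₀ : ℝ) ^ (κ - k) * (Finset.univ.gcd g : ℤ) := by
    refine le_of_mul_le_mul_left ?_ hpos
    calc |(M : ℝ)| * (u₀ : ℝ) ^ k * ‖g‖ = |(M : ℝ)| * ‖g‖ * (u₀ : ℝ) ^ k := by ring
      _ ≤ _ := h1
      _ = |(M : ℝ)| * (u₀ : ℝ) ^ k * (|C'| * ((B : ℝ) + 1) ^ κ * (u₀ : ℝ) ^ (κ - k) * (Finset.univ.gcd g : ℤ)) := by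
        ring
  have h4 : (u₀ : ℝ) ^ (κ - k) ≤ 2 ^ (κ - k) * ‖p‖ ^ (A * ((n : ℝ) + 1) - 1 + ε) := by
    calc (u₀ : ℝ) ^ (κ - k) ≤ (2 * r) ^ (κ - k) := Real.rpow_le_rpow (by linarith) hu2 (by linarith)
      _ = 2 ^ (κ - k) * r ^ (κ - k) := Real.mul_rpow (by norm_num) (by linarith)
      _ ≤ 2 ^ (κ - k) * ‖p‖ ^ (A * ((n : ℝ) + 1) - 1 + ε) := by
        refine mul_le_mul_of_nonneg_left ?_ (by positivity)
        have h5 : r ^ (κ - k) ≤ r ^ ((A * ((n : ℝ) + 1) - 1 + ε) * k) := Real.rpow_le_rpow_of_exponent_le hr1 hexp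
        refine h5.trans (le_of_eq ?_)
        rw [mul_comm, Real.rpow_mul (by linarith), Real.rpow_natCast, hrk]
  have hgR : (0 : ℝ) ≤ ((Finset.univ.gcd g : ℤ) : ℝ) := by exact_mod_cast hgcd0
  refine h3.trans ?_
  refine mul_le_mul_of_nonneg_right ?_ hgR
  calc |C'| * ((B : ℝ) + 1) ^ κ * (u₀ : ℝ) ^ (κ - k) ≤
        |C'| * ((B : ℝ) + 1) ^ κ * (2 ^ (κ - k) * ‖p‖ ^ (A * ((n : ℝ) + 1) - 1 + ε)) :=
        mul_le_mul_of_nonneg_left h4 (by positivity)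
    _ = |C'| * ((B : ℝ) + 1) ^ κ * 2 ^ (κ - k) * ‖p‖ ^ (A * ((n : ℝ) + 1) - 1 + ε) := by ring

/-- A larger exponent. -/
theorem GradE.mono {n : ℕ} {a b : ℝ} (hab : a ≤ b) {H : MvPolynomial (Fin (n + 1)) ℤ} (h : GradE a H) : GradE b H := by
  obtain ⟨G, C, hG1, hG2, hG⟩ := h
  refine ⟨G, |C|, hG1, hG2, fun p hp hp0 hpG => (hG p hp hp0 hpG).trans ?_⟩
  have hpne : p ≠ 0 := by
    rintro rfl
    rw [Finset.gcd_eq_zero_iff.2 (by simp)] at hp
    exact zero_ne_one hp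
  have hp1 : 1 ≤ ‖p‖ := by
    obtain ⟨i, hi⟩ := Function.ne_iff.1 hpne
    have h1 := norm_le_pi_norm p i
    have h2 : (1 : ℝ) ≤ ‖p i‖ := by
      rw [Int.norm_eq_abs]
      exact_mod_cast Int.one_le_abs hi
    exact h2.trans h1
  have hg : (0 : ℝ) ≤ ((Finset.univ.gcd fun j => eval p (pderiv j H) : ℤ) : ℝ) := by
    have h1 := Int.abs_eq_normalize (Finset.univ.gcd fun j => eval p (pderiv j H))
    rw [Finset.normalize_gcd] at h1
    rw [← h1]
    exact_mod_cast abs_nonneg _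
  refine mul_le_mul_of_nonneg_right ?_ hg
  exact mul_le_mul (le_abs_self C) (Real.rpow_le_rpow_of_exponent_le hp1 hab) (by positivity) (abs_nonneg C)

/-- For every `A ≥ 1` the inequality with the exponents `(A + o(1)) n`, for arbitrarily large `n`, is equivalent to the
inequality with the exponents `A (n + 1) - 1 + ε` for all `n`. -/
theorem weak_iff {A : ℝ} (hA : 1 ≤ A) : GradW A ↔
    ∀ (n e : ℕ) (H : MvPolynomial (Fin (n + 1)) ℤ) (ε : ℝ), H.IsHomogeneous e →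
      Irreducible (map (Int.castRingHom ℚ) H) → 0 < ε → GradE (A * (n + 1) - 1 + ε) H := by
  refine ⟨fun h n e H ε h1 h2 h3 => all_of_weak hA h n e H ε h1 h2 h3, fun h δ hδ n₀ => ?_⟩
  obtain ⟨j, hj⟩ := exists_nat_ge (A / δ)
  refine ⟨max n₀ j, le_max_left _ _, fun e H hH hirr => (h _ e H 1 hH hirr one_pos).mono ?_⟩
  have h1 : A / δ ≤ ((max n₀ j : ℕ) : ℝ) := hj.trans (by exact_mod_cast le_max_right _ _)
  rw [div_le_iff₀ hδ] at h1
  linarith

end Pool.Agent.Lib.MP_17a322_nt.GE
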